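import Pool.Agent.Lib.MP_8fffab_lc.Proof

namespace Pool.Agent.Lib.MP_8fffab_lc_Gap

open Finset

/-- the number of subsets with at most `r` elements of a set with `n` elements -/
def ball (n r : ℕ) : ℕ := ∑ i ∈ range (r + 1), n.choose i

theorem ball_le (n r : ℕ) {x : ℝ} (hx0 : 0 < x) (hx1 : x ≤ 1) :
    (ball n r : ℝ) * x ^ r ≤ (1 + x) ^ n := by
  have h1 : (1 + x) ^ n = ∑ i ∈ range (n + 1), (n.choose i : ℝ) * x ^ i := by
    rw [add_comm, add_pow]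
    apply Finset.sum_congr rfl
    intro i _
    rw [one_pow]; ring
  unfold ball
  push_cast
  rw [Finset.sum_mul, h1]
  have h2 : ∑ i ∈ range (r + 1), (n.choose i : ℝ) * x ^ r ≤
      ∑ i ∈ range (r + 1), (n.choose i : ℝ) * x ^ i := by
    apply Finset.sum_le_sum
    intro i hi
    have : x ^ r ≤ x ^ i := pow_le_pow_of_le_one hx0.le hx1 (by
      have := Finset.mem_range.1 hi; omega)
    gcongr
  refine h2.trans ?_
  rcases le_total r n with h | h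
  · apply Finset.sum_le_sum_of_subset_of_nonneg
    · intro i hi
      rw [Finset.mem_range] at hi ⊢
      omega
    · intro i _ _
      positivity
  · have h3 : ∑ i ∈ range (n + 1), (n.choose i : ℝ) * x ^ i =
        ∑ i ∈ range (r + 1), (n.choose i : ℝ) * x ^ i := by
      apply Finset.sum_subset
      · intro i hi
        rw [Finset.mem_range] at hi ⊢
        omega
      · intro i _ hi
        rw [Finset.mem_range] at hi
        rw [Nat.choose_eq_zero_of_lt (by omega)]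
        simp
    rw [h3]

theorem ball_bound (ρ : ℝ) (hρ : 1 < ρ) :
    ∃ δ : ℝ, 0 < δ ∧ ∀ n r : ℕ, (r : ℝ) ≤ δ * n → (ball n r : ℝ) ≤ (ρ ^ n) ^ 2 := by
  set x : ℝ := (ρ - 1) / ρ with hx
  have hρ0 : 0 < ρ := by linarith
  have hx0 : 0 < x := by
    rw [hx]; apply div_pos <;> linarith
  have hx1 : x < 1 := by
    rw [hx, div_lt_one hρ0]; linarith
  have hx2 : 1 + x ≤ ρ := by
    rw [hx]
    have : (ρ - 1) / ρ ≤ ρ - 1 := by
      rw [div_le_iff₀ hρ0]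
      nlinarith
    linarith
  have hlx : 0 < - Real.log x := by
    have := Real.log_neg hx0 hx1
    linarith
  have hlρ : 0 < Real.log ρ := Real.log_pos hρ
  refine ⟨Real.log ρ / (- Real.log x), by positivity, ?_⟩
  intro n r hr
  have h1 := ball_le n r hx0 hx1.le
  have h2 : (1 + x) ^ n ≤ ρ ^ n := by gcongr
  have h3 : (r : ℝ) * (- Real.log x) ≤ n * Real.log ρ := by
    have := mul_le_mul_of_nonneg_right hr hlx.le
    rw [div_mul_eq_mul_div, div_mul_cancel₀ _ hlx.ne'] at this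
    linarith
  -- `1 ≤ ρ ^ n * x ^ r`
  have h4 : 1 ≤ ρ ^ n * x ^ r := by
    have h5 : Real.exp 0 ≤ Real.exp (n * Real.log ρ + r * Real.log x) := by
      apply Real.exp_le_exp.2
      linarith
    rw [Real.exp_zero, Real.exp_add, mul_comm (n : ℝ), mul_comm (r : ℝ), Real.exp_mul,
      Real.exp_mul, Real.exp_log hρ0, Real.exp_log hx0, Real.rpow_natCast, Real.rpow_natCast] at h5
    exact h5
  have hxr : 0 < x ^ r := by positivity
  have h6 : (ball n r : ℝ) * x ^ r ≤ ((ρ ^ n) ^ 2) * x ^ r := by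
    calc (ball n r : ℝ) * x ^ r ≤ ρ ^ n := h1.trans h2
      _ = ρ ^ n * 1 := by ring
      _ ≤ ρ ^ n * (ρ ^ n * x ^ r) := by gcongr
      _ = _ := by ring
  exact le_of_mul_le_mul_right h6 hxr

/-- `(2h choose h)^(d-1)` beats `b^n * poly` if `b^d < 2^(d-1)`. -/
theorem numeric_core (b : ℝ) (hb0 : 0 ≤ b) (d : ℕ) (hd : 2 ≤ d) (hbd : b ^ d < 2 ^ (d - 1)) (c : ℕ) :
    ∃ h₀ : ℕ, ∀ h, h₀ ≤ h → 1 ≤ h ∧
        (c : ℝ) * b ^ (d * (2 * h)) *
          ((d * (2 * h) : ℕ) + ((d * (2 * h)).choose d : ℕ) : ℝ) ^ c <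
            (((2 * h).choose h ^ (d - 1) : ℕ) : ℝ) := by
  -- the ratio tends to zero
  set r : ℝ := (b ^ d / 2 ^ (d - 1)) ^ 2 with hr
  have hr0 : 0 ≤ b ^ d / 2 ^ (d - 1) := by positivity
  have hr1 : b ^ d / 2 ^ (d - 1) < 1 := by
    rw [div_lt_one (by positivity)]; exact hbd
  have hr2 : |r| < 1 := by
    rw [hr, abs_of_nonneg (by positivity)]
    exact pow_lt_one₀ hr0 hr1 (by norm_num)
  have hlim := (tendsto_pow_const_mul_const_pow_of_abs_lt_one ((d - 1) + d * c) hr2).const_mul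
    ((c : ℝ) * 2 ^ (d - 1) * (2 * (2 * d) ^ d) ^ c)
  rw [mul_zero] at hlim
  have hev := (hlim.eventually (gt_mem_nhds (zero_lt_one))).and
    (Filter.eventually_ge_atTop 1)
  obtain ⟨h₀, hh₀⟩ := Filter.eventually_atTop.1 hev
  refine ⟨h₀, fun h hh => ?_⟩
  obtain ⟨hlt, hh1⟩ := hh₀ h hh
  refine ⟨hh1, ?_⟩
  rw [← Nat.centralBinom_eq_two_mul_choose]
  push_cast
  have hhR : (1 : ℝ) ≤ h := by exact_mod_cast hh1
  have hdR : (2 : ℝ) ≤ d := by exact_mod_cast hd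
  -- central binomial coefficient
  have hcb : (4 : ℝ) ^ h ≤ (2 * h) * Nat.centralBinom h := by
    have := Nat.four_pow_le_two_mul_self_mul_centralBinom h (by omega)
    exact_mod_cast this
  have hcb2 : ((4 : ℝ) ^ h) ^ (d - 1) ≤ (2 * h) ^ (d - 1) * (Nat.centralBinom h : ℝ) ^ (d - 1) := by
    rw [← mul_pow]
    gcongr
  -- size of the instance
  have hN : ((d * (2 * h) : ℕ) + ((d * (2 * h)).choose d : ℕ) : ℝ) ≤
      2 * (2 * d) ^ d * (h : ℝ) ^ d := by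
    have h1 : (((d * (2 * h)).choose d : ℕ) : ℝ) ≤ ((d * (2 * h) : ℕ) : ℝ) ^ d := by
      exact_mod_cast Nat.choose_le_pow (d * (2 * h)) d
    have h2 : ((d * (2 * h) : ℕ) : ℝ) ≤ ((d * (2 * h) : ℕ) : ℝ) ^ d := by
      have h3 : (1 : ℝ) ≤ ((d * (2 * h) : ℕ) : ℝ) := by
        have : 1 ≤ d * (2 * h) := by nlinarith
        exact_mod_cast this
      calc ((d * (2 * h) : ℕ) : ℝ) = ((d * (2 * h) : ℕ) : ℝ) ^ 1 := by ring
        _ ≤ _ := pow_le_pow_right₀ h3 (by omega)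
    have h4 : ((d * (2 * h) : ℕ) : ℝ) ^ d = (2 * d) ^ d * (h : ℝ) ^ d := by
      rw [← mul_pow]
      congr 1
      push_cast
      ring
    rw [h4] at h1 h2
    linarith
  have hN' : ((d : ℝ) * (2 * h) + ((d * (2 * h)).choose d : ℕ) : ℝ) ≤
      2 * (2 * d) ^ d * (h : ℝ) ^ d := by
    have := hN
    push_cast at this
    exact this
  have hpos : (0 : ℝ) < (2 * h) ^ (d - 1) := by positivity
  have key : (2 * (h : ℝ)) ^ (d - 1) * ((c : ℝ) * b ^ (d * (2 * h)) *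
      ((d : ℝ) * (2 * h) + ((d * (2 * h)).choose d : ℕ) : ℝ) ^ c) < ((4 : ℝ) ^ h) ^ (d - 1) := by
    have h1 : (2 * (h : ℝ)) ^ (d - 1) * ((c : ℝ) * b ^ (d * (2 * h)) *
        ((d : ℝ) * (2 * h) + ((d * (2 * h)).choose d : ℕ) : ℝ) ^ c) ≤
        (2 * (h : ℝ)) ^ (d - 1) * ((c : ℝ) * b ^ (d * (2 * h)) *
          (2 * (2 * d) ^ d * (h : ℝ) ^ d) ^ c) := by
      gcongr
    refine lt_of_le_of_lt h1 ?_
    have h2 : (2 * (h : ℝ)) ^ (d - 1) * ((c : ℝ) * b ^ (d * (2 * h)) *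
          (2 * (2 * d) ^ d * (h : ℝ) ^ d) ^ c) =
        ((c : ℝ) * 2 ^ (d - 1) * (2 * (2 * d) ^ d) ^ c *
          ((h : ℝ) ^ ((d - 1) + d * c) * r ^ h)) * ((4 : ℝ) ^ h) ^ (d - 1) := by
      have e1 : r ^ h * ((4 : ℝ) ^ h) ^ (d - 1) = b ^ (d * (2 * h)) := by
        rw [hr, ← pow_mul, div_pow, ← pow_mul, ← pow_mul]
        have e2 : ((4 : ℝ) ^ h) ^ (d - 1) = 2 ^ ((d - 1) * (2 * h)) := by
          rw [← pow_mul, show (4 : ℝ) = 2 ^ 2 by norm_num, ← pow_mul]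
          congr 1
          ring
        rw [e2, div_mul_cancel₀]
        positivity
      calc (2 * (h : ℝ)) ^ (d - 1) * ((c : ℝ) * b ^ (d * (2 * h)) *
          (2 * (2 * d) ^ d * (h : ℝ) ^ d) ^ c)
          = (c : ℝ) * 2 ^ (d - 1) * (2 * (2 * d) ^ d) ^ c *
            ((h : ℝ) ^ ((d - 1) + d * c)) * b ^ (d * (2 * h)) := by
            rw [mul_pow 2 (h : ℝ), mul_pow (2 * (2 * (d : ℝ)) ^ d), ← pow_mul (h : ℝ) d c, pow_add]
            ring
        _ = _ := by rw [← e1]; ring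
    rw [h2]
    have h3 : (0 : ℝ) < ((4 : ℝ) ^ h) ^ (d - 1) := by positivity
    calc _ < 1 * ((4 : ℝ) ^ h) ^ (d - 1) := by
          apply mul_lt_mul_of_pos_right hlt h3
      _ = _ := one_mul _
  have h5 := lt_of_lt_of_le key hcb2
  exact lt_of_mul_lt_mul_left h5 hpos.le

/-- The bound with the loss of balls of radius `ε n`. -/
theorem numeric_gap (b : ℝ) (hb0 : 0 ≤ b) (hb : b < 2) :
    ∃ ε : ℝ, 0 < ε ∧ ε ≤ 1 / 2 ∧ ∃ d₀ : ℕ, 2 ≤ d₀ ∧ ∀ d, d₀ ≤ d → ∀ c : ℕ, ∃ h₀ : ℕ, ∀ h, h₀ ≤ h →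
      1 ≤ h ∧
      ∀ r : ℕ, (r : ℝ) ≤ 4 * (ε * (d * (2 * h) : ℕ)) →
        (c : ℝ) * b ^ (d * (2 * h)) *
          ((d * (2 * h) : ℕ) + ((d * (2 * h)).choose d : ℕ) : ℝ) ^ c *
            (ball (d * (2 * h)) r : ℝ) ^ 2 < (((2 * h).choose h ^ (d - 1) : ℕ) : ℝ) := by
  set b' : ℝ := max b 1 with hb'
  have hb'0 : 1 ≤ b' := le_max_right _ _
  have hb'2 : b' < 2 := max_lt hb (by norm_num)
  set b₁ : ℝ := (b' + 2) / 2 with hb₁
  have hb₁2 : b₁ < 2 := by rw [hb₁]; linarith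
  have hb₁b : b' < b₁ := by rw [hb₁]; linarith
  set γ : ℝ := b₁ / b' with hγ
  have hγ1 : 1 < γ := by
    rw [hγ, one_lt_div (by linarith)]; exact hb₁b
  set ρ : ℝ := Real.sqrt (Real.sqrt γ) with hρ
  have hρ1 : 1 < ρ := by
    rw [hρ]
    apply Real.lt_sqrt_of_sq_lt
    rw [one_pow]
    apply Real.lt_sqrt_of_sq_lt
    rw [one_pow]; exact hγ1
  have hρ4 : ρ ^ 4 = γ := by
    have h1 : ρ ^ 2 = Real.sqrt γ := Real.sq_sqrt (Real.sqrt_nonneg _)
    have h2 : Real.sqrt γ ^ 2 = γ := Real.sq_sqrt (by linarith)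
    calc ρ ^ 4 = (ρ ^ 2) ^ 2 := by ring
      _ = γ := by rw [h1, h2]
  obtain ⟨δ, hδ, hball⟩ := ball_bound ρ hρ1
  -- the size `d`
  have hq : b₁ / 2 < 1 := by rw [div_lt_one (by norm_num)]; exact hb₁2
  have hq0 : 0 ≤ b₁ / 2 := by linarith
  obtain ⟨m, hm⟩ := exists_pow_lt_of_lt_one (show (0 : ℝ) < 1 / 2 by norm_num) hq
  refine ⟨min (δ / 4) (1 / 2), by positivity, min_le_right _ _, max m 2, le_max_right _ _, ?_⟩
  intro d hd c
  have hd2 : 2 ≤ d := (le_max_right _ _).trans hd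
  have hdm : m ≤ d := (le_max_left _ _).trans hd
  have hbd : b₁ ^ d < 2 ^ (d - 1) := by
    have h1 : (b₁ / 2) ^ d < 1 / 2 := lt_of_le_of_lt (pow_le_pow_of_le_one hq0 hq.le hdm) hm
    rw [div_pow, div_lt_iff₀ (by positivity)] at h1
    have h2 : (2 : ℝ) ^ d = 2 * 2 ^ (d - 1) := by
      rw [← pow_succ']
      congr 1
      omega
    rw [h2] at h1
    linarith
  obtain ⟨h₀, hh₀⟩ := numeric_core b₁ (by linarith) d hd2 hbd c
  refine ⟨h₀, fun h hh => ?_⟩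
  obtain ⟨hh1, hlt⟩ := hh₀ h hh
  refine ⟨hh1, fun r hr => ?_⟩
  refine lt_of_le_of_lt ?_ hlt
  have h1 : (ball (d * (2 * h)) r : ℝ) ≤ (ρ ^ (d * (2 * h))) ^ 2 := by
    apply hball
    have h5 : min (δ / 4) (1 / 2) ≤ δ / 4 := min_le_left _ _
    have h6 : (0 : ℝ) ≤ (d * (2 * h) : ℕ) := Nat.cast_nonneg _
    have h7 := mul_le_mul_of_nonneg_right h5 h6
    linarith
  have h2 : (ball (d * (2 * h)) r : ℝ) ^ 2 ≤ γ ^ (d * (2 * h)) := by
    calc (ball (d * (2 * h)) r : ℝ) ^ 2 ≤ ((ρ ^ (d * (2 * h))) ^ 2) ^ 2 := by gcongr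
      _ = γ ^ (d * (2 * h)) := by
        rw [← hρ4]
        rw [← pow_mul, ← pow_mul, ← pow_mul]
        congr 1
        ring
  have h3 : b ^ (d * (2 * h)) * (ball (d * (2 * h)) r : ℝ) ^ 2 ≤ b₁ ^ (d * (2 * h)) := by
    calc b ^ (d * (2 * h)) * (ball (d * (2 * h)) r : ℝ) ^ 2
        ≤ b' ^ (d * (2 * h)) * γ ^ (d * (2 * h)) := by
          gcongr
          exact le_max_left _ _
      _ = b₁ ^ (d * (2 * h)) := by
        rw [← mul_pow, hγ, mul_div_cancel₀]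
        linarith
  calc (c : ℝ) * b ^ (d * (2 * h)) *
          ((d * (2 * h) : ℕ) + ((d * (2 * h)).choose d : ℕ) : ℝ) ^ c *
            (ball (d * (2 * h)) r : ℝ) ^ 2
      = c * (b ^ (d * (2 * h)) * (ball (d * (2 * h)) r : ℝ) ^ 2) *
          ((d * (2 * h) : ℕ) + ((d * (2 * h)).choose d : ℕ) : ℝ) ^ c := by ring
    _ ≤ c * b₁ ^ (d * (2 * h)) *
          ((d * (2 * h) : ℕ) + ((d * (2 * h)).choose d : ℕ) : ℝ) ^ c := by gcongr

end Pool.Agent.Lib.MP_8fffab_lc_Gap
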