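import Pool.Agent.Lib.MP_8fffab_lc_Gap.DefsCover
import Pool.Agent.Lib.MP_8fffab_lc_Gap.Numeric

namespace Pool.Agent.Lib.MP_8fffab_lc_Gap

open Finset Pool.Agent.Lib.MP_8fffab_lc

/-- If `F` has a cover by `K` sets, then the sets with `d` elements in `F` leave few elements
uncovered. -/
theorem uncovered {n d m K : ℕ} (hd : 2 ≤ d) (hn : n = d * m) {F : Finset (Finset (Fin n))}
    (hF : Allowed d F) (hK : HasCover F K) (X : Finset (Fin n))
    (hX : ∀ A ∈ F, A.card = d → A ⊆ X) :
    (univ \ X).card * (d - 1) + d * m ≤ d * K := by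
  classical
  obtain ⟨G, hG, hGK, hcov⟩ := hK
  set G₁ := G.filter fun A => A.card = d with hG₁
  set G₂ := G.filter fun A => ¬ A.card = d with hG₂
  have hsum : G₁.card + G₂.card = G.card := Finset.card_filter_add_card_filter_not _
  have h1 : (univ \ X).card ≤ G₂.card := by
    have h2 : univ \ X ⊆ G₂.biUnion id := by
      intro u hu
      obtain ⟨A, hA, huA⟩ := hcov u
      rw [Finset.mem_biUnion]
      refine ⟨A, ?_, huA⟩
      rw [hG₂, Finset.mem_filter]
      refine ⟨hA, fun hc => ?_⟩
      exact (Finset.mem_sdiff.1 hu).2 (hX A (hG hA) hc huA)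
    refine (Finset.card_le_card h2).trans (Finset.card_biUnion_le.trans ?_)
    rw [Finset.card_eq_sum_ones]
    apply Finset.sum_le_sum
    intro A hA
    rw [hG₂, Finset.mem_filter] at hA
    rcases hF.1 A (hG hA.1) with h | h
    · exact absurd h hA.2
    · exact h.le
  have h3 : n ≤ d * G₁.card + G₂.card := by
    have h4 : (univ : Finset (Fin n)) ⊆ G₁.biUnion id ∪ G₂.biUnion id := by
      intro u _
      obtain ⟨A, hA, huA⟩ := hcov u
      rw [Finset.mem_union, Finset.mem_biUnion, Finset.mem_biUnion]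
      by_cases hc : A.card = d
      · exact Or.inl ⟨A, by rw [hG₁, Finset.mem_filter]; exact ⟨hA, hc⟩, huA⟩
      · exact Or.inr ⟨A, by rw [hG₂, Finset.mem_filter]; exact ⟨hA, hc⟩, huA⟩
    have h5 := Finset.card_le_card h4
    rw [Finset.card_univ, Fintype.card_fin] at h5
    refine h5.trans ((Finset.card_union_le _ _).trans (Nat.add_le_add ?_ ?_))
    · refine Finset.card_biUnion_le.trans ?_
      calc ∑ A ∈ G₁, (id A).card = ∑ A ∈ G₁, d := by
            apply Finset.sum_congr rfl
            intro A hA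
            rw [hG₁, Finset.mem_filter] at hA
            exact hA.2
        _ = d * G₁.card := by rw [Finset.sum_const, smul_eq_mul, mul_comm]
        _ ≤ _ := le_rfl
    · refine Finset.card_biUnion_le.trans ?_
      rw [Finset.card_eq_sum_ones]
      apply Finset.sum_le_sum
      intro A hA
      rw [hG₂, Finset.mem_filter] at hA
      rcases hF.1 A (hG hA.1) with h | h
      · exact absurd h hA.2
      · exact h.le
  obtain ⟨e, rfl⟩ := Nat.exists_eq_add_of_le' (show 1 ≤ d by omega)
  simp only [Nat.add_sub_cancel]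
  calc (univ \ X).card * e + (e + 1) * m ≤ G₂.card * e + ((e + 1) * G₁.card + G₂.card) := by
        rw [← hn]; gcongr
    _ = (e + 1) * (G₁.card + G₂.card) := by ring
    _ ≤ (e + 1) * K := by rw [hsum]; gcongr

/-- The number of sets at distance at most `r` from `A`. -/
theorem card_ball {n : ℕ} (A : Finset (Fin n)) (r : ℕ) (S : Finset (Finset (Fin n)))
    (hS : ∀ B ∈ S, (symmDiff A B).card ≤ r) : S.card ≤ ball n r := by
  classical
  have h1 : S.card = (S.image fun B => symmDiff A B).card := by
    rw [Finset.card_image_of_injective]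
    exact symmDiff_right_injective A
  have h2 : (S.image fun B => symmDiff A B) ⊆
      (range (r + 1)).biUnion fun i => (univ : Finset (Fin n)).powersetCard i := by
    intro D hD
    obtain ⟨B, hB, rfl⟩ := Finset.mem_image.1 hD
    rw [Finset.mem_biUnion]
    exact ⟨_, Finset.mem_range.2 (Nat.lt_succ_of_le (hS B hB)),
      Finset.mem_powersetCard.2 ⟨Finset.subset_univ _, rfl⟩⟩
  rw [h1]
  refine (Finset.card_le_card h2).trans (Finset.card_biUnion_le.trans ?_)
  unfold ball
  apply Finset.sum_le_sum
  intro i _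
  rw [Finset.card_powersetCard, Finset.card_univ, Fintype.card_fin]

theorem card_symmDiff_le {n : ℕ} (A B : Finset (Fin n)) (ν : ℕ) (h1 : (A \ B).card ≤ ν)
    (h2 : (B \ A).card ≤ ν) : (symmDiff A B).card ≤ 2 * ν := by
  rw [symmDiff_def, Finset.sup_eq_union]
  refine (Finset.card_union_le _ _).trans ?_
  omega

section planted

variable {e m n : ℕ} (φ : Fin (e + 1) × Fin m ≃ Fin n)

/-- the planted family of `σ` together with the singletons -/
def sing (n : ℕ) : Finset (Finset (Fin n)) := univ.image fun u => {u}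

theorem mem_sing {n : ℕ} (A : Finset (Fin n)) : A ∈ sing n ↔ ∃ u, {u} = A := by
  simp [sing]

theorem card_of_mem_sing {n : ℕ} {A : Finset (Fin n)} (h : A ∈ sing n) : A.card = 1 := by
  obtain ⟨u, rfl⟩ := (mem_sing A).1 h
  exact Finset.card_singleton u

theorem mem_sing_of_card {n : ℕ} {A : Finset (Fin n)} (h : A.card = 1) : A ∈ sing n := by
  obtain ⟨u, rfl⟩ := Finset.card_eq_one.1 h
  exact (mem_sing _).2 ⟨u, rfl⟩

theorem block_notMem_sing (he : 1 ≤ e) (σ : Fin e → Equiv.Perm (Fin m)) (i : Fin m) :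
    block φ σ i ∉ sing n := by
  intro h
  have h1 := card_of_mem_sing h
  rw [card_block] at h1
  omega

theorem allowed_union {d : ℕ} {Q : Finset (Finset (Fin n))}
    (hQ : ∀ A ∈ Q, A.card = d ∨ A.card = 1) : Allowed d (Q ∪ sing n) := by
  constructor
  · intro A hA
    rcases Finset.mem_union.1 hA with h | h
    · exact hQ A h
    · exact Or.inr (card_of_mem_sing h)
  · intro u
    exact Finset.mem_union_right _ ((mem_sing _).2 ⟨u, rfl⟩)

theorem fam_sing_cover (σ : Fin e → Equiv.Perm (Fin m)) : HasCover (fam φ σ ∪ sing n) m := by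
  obtain ⟨G, hG, hc, hcov⟩ := fam_cover φ σ
  exact ⟨G, hG.trans Finset.subset_union_left, hc, hcov⟩

end planted

end Pool.Agent.Lib.MP_8fffab_lc_Gap
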