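import Pool.Agent.Lib.MP_8fffab_lc_Gap.DefsCircuit
import Pool.Agent.Lib.MP_8fffab_lc_Gap.Cover
import Pool.Agent.Lib.MP_8fffab_lc_DNNF.Proof

namespace Pool.Agent.Lib.MP_8fffab_lc_Gap

open Finset
open Pool.Agent.Lib.MP_8fffab_lc (HasCover idx block fam mem_fam mem_block card_block block_injective
  card_fam fam_cover cover_eq idx_zero idx_succ stab_bound)
open Pool.Agent.Lib.MP_8fffab_lc_DNNF

section general

variable {ι : Type} [DecidableEq ι] {C : ℕ → Gate ι}

/-- Every large proof tree passes through an `and` gate both of whose arguments are small (size is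
the number of positive literals with the property `p`). -/
theorem trace_gap (C : ℕ → Gate ι) (out h : ℕ) (hh : 1 ≤ h) (p : ι → Prop) [DecidablePred p]
    (hdec : Decomposable C out) (k : ℕ) :
    ∀ (P N R S : Finset ι), k ≤ out → Cert C k P N → h < (P.filter p).card →
      (∀ a ∈ R, ¬ Occurs C a k) →
      (∀ P' N', Cert C k P' N' → Cert C out (P' ∪ R) (N' ∪ S)) →
      ∃ g i j P₁ N₁ P₂ N₂ R₀ S₀, g ≤ out ∧ C g = .and i j ∧ Cert C i P₁ N₁ ∧ Cert C j P₂ N₂ ∧
        (P₁.filter p).card ≤ h ∧ (P₂.filter p).card ≤ h ∧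
        h < (P₁.filter p).card + (P₂.filter p).card ∧ P ∪ R = P₁ ∪ P₂ ∪ R₀ ∧
        N ∪ S = N₁ ∪ N₂ ∪ S₀ ∧
        (∀ a ∈ R₀, ¬ Occurs C a i ∧ ¬ Occurs C a j) ∧
        ∀ P₁' N₁' P₂' N₂', Cert C i P₁' N₁' → Cert C j P₂' N₂' →
          Cert C out (P₁' ∪ P₂' ∪ R₀) (N₁' ∪ N₂' ∪ S₀) := by
  induction k using Nat.strong_induction_on with
  | _ k ih =>
    intro P N R S hk hm hP hR henv
    cases hm with
    | @pos _ a hg =>
      have := (Finset.card_filter_le ({a} : Finset ι) p)
      rw [Finset.card_singleton] at this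
      exact absurd (hP.trans_le this) (by omega)
    | neg hg => simp at hP
    | const hg => simp at hP
    | @or _ i l _ _ hg hl hi hc =>
      exact ih _ hi P N R S (by omega) hc hP (fun a ha ho => hR a ha (.or hg hl hi ho))
        (fun P' N' h' => henv P' N' (.or hg hl hi h'))
    | @and _ i j P₁ N₁ P₂ N₂ hg hi hj h₁ h₂ =>
      by_cases hb₁ : h < (P₁.filter p).card
      · obtain ⟨g, i', j', Q₁, M₁, Q₂, M₂, R₀, S₀, a1, a2, a3, a4, a5, a6, a7, a8, a9, a10, a11⟩ :=
          ih i hi P₁ N₁ (P₂ ∪ R) (N₂ ∪ S) (by omega) h₁ hb₁ (by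
            intro a ha ho
            rcases Finset.mem_union.1 ha with h' | h'
            · exact hdec k hk i j hg a ⟨ho, occurs_of_cert h₂ a (Or.inl h')⟩
            · exact hR a h' (.andl hg hi hj ho)) (by
            intro P' N' h'
            have := henv _ _ (.and hg hi hj h' h₂)
            rwa [Finset.union_assoc, Finset.union_assoc] at this)
        refine ⟨g, i', j', Q₁, M₁, Q₂, M₂, R₀, S₀, a1, a2, a3, a4, a5, a6, a7, ?_, ?_, a10, a11⟩
        · rw [← a8, Finset.union_assoc]
        · rw [← a9, Finset.union_assoc]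
      · by_cases hb₂ : h < (P₂.filter p).card
        · obtain ⟨g, i', j', Q₁, M₁, Q₂, M₂, R₀, S₀, a1, a2, a3, a4, a5, a6, a7, a8, a9, a10,
            a11⟩ :=
            ih j hj P₂ N₂ (P₁ ∪ R) (N₁ ∪ S) (by omega) h₂ hb₂ (by
              intro a ha ho
              rcases Finset.mem_union.1 ha with h' | h'
              · exact hdec k hk i j hg a ⟨occurs_of_cert h₁ a (Or.inl h'), ho⟩
              · exact hR a h' (.andr hg hi hj ho)) (by
              intro P' N' h'
              have := henv _ _ (.and hg hi hj h₁ h')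
              have e1 : P' ∪ (P₁ ∪ R) = P₁ ∪ P' ∪ R := by
                rw [← Finset.union_assoc, Finset.union_comm P' P₁]
              have e2 : N' ∪ (N₁ ∪ S) = N₁ ∪ N' ∪ S := by
                rw [← Finset.union_assoc, Finset.union_comm N' N₁]
              rwa [e1, e2])
          refine ⟨g, i', j', Q₁, M₁, Q₂, M₂, R₀, S₀, a1, a2, a3, a4, a5, a6, a7, ?_, ?_, a10, a11⟩
          · rw [← a8, ← Finset.union_assoc, Finset.union_comm P₂ P₁]
          · rw [← a9, ← Finset.union_assoc, Finset.union_comm N₂ N₁]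
        · refine ⟨k, i, j, P₁, N₁, P₂, N₂, R, S, hk, hg, h₁, h₂, by omega, by omega, ?_, rfl, rfl,
            ?_, ?_⟩
          · refine lt_of_lt_of_le hP ?_
            rw [Finset.filter_union]
            exact Finset.card_union_le _ _
          · intro a ha
            exact ⟨fun ho => hR a ha (.andl hg hi hj ho), fun ho => hR a ha (.andr hg hi hj ho)⟩
          · intro P₁' N₁' P₂' N₂' h₁' h₂'
            exact henv _ _ (.and hg hi hj h₁' h₂')

end general

section main

variable {e m n : ℕ} (φ : Fin (e + 1) × Fin m ≃ Fin n) {C : ℕ → Gate (Finset (Fin n))} {out : ℕ}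

/-- a certificate of the output whose negative literals avoid the singletons -/
theorem cover_of_cert {K : ℕ} (hC : Separates C out (e + 1) m K) (hdec : Decomposable C out)
    {P N : Finset (Finset (Fin n))} (hc : Cert C out P N)
    (hP : ∀ A ∈ P, A.card = e + 1 ∨ A.card = 1) (hN : ∀ A ∈ N, A.card ≠ 1) :
    HasCover (P ∪ sing n) K := by
  by_contra hcov
  refine (hC _ (allowed_union hP)).2 hcov ?_
  refine eval_of_cert hc (fun a ha => ?_) (fun a ha => ?_)
  · simp [ha]
  · have h1 : a ∉ P := fun h' => cert_disjoint hdec hc le_rfl a h' ha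
    have h2 : a ∉ sing n := fun h' => hN a ha (card_of_mem_sing h')
    simp [h1, h2]

theorem lower_bound_gap (e h : ℕ) (he : 1 ≤ e) (hh : 1 ≤ h) (n K : ℕ) (hK : K < (e + 2) * h)
    (φ : Fin (e + 1) × Fin (2 * h) ≃ Fin n)
    (C : ℕ → Gate (Finset (Fin n))) (out : ℕ) (hdec : Decomposable C out)
    (hC : Separates C out (e + 1) (2 * h) K) :
    (Nat.centralBinom h) ^ e ≤ numAnd C out * ball n (2 * ((e + 1) * (K - 2 * h) / e)) ^ 2 := by
  classical
  have hn : n = (e + 1) * (2 * h) := by
    have := Fintype.card_congr φ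
    simp only [Fintype.card_prod, Fintype.card_fin] at this
    exact this.symm
  have h1mem : ∀ (σ : Fin e → Equiv.Perm (Fin (2 * h))) (A : Finset (Fin n)), A ∈ fam φ σ ∪ sing n →
      A.card = e + 1 → A ∈ fam φ σ := by
    intro σ A hA hc
    rcases Finset.mem_union.1 hA with h | h
    · exact h
    · have := card_of_mem_sing h
      omega
  have hcard : ∀ (σ : Fin e → Equiv.Perm (Fin (2 * h))) (A : Finset (Fin n)), A ∈ fam φ σ ∪ sing n →
      A.card = e + 1 ∨ A.card = 1 := by
    intro σ A hA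
    rcases Finset.mem_union.1 hA with h | h
    · obtain ⟨i, rfl⟩ := (mem_fam φ σ A).1 h
      exact Or.inl (card_block φ σ i)
    · exact Or.inr (card_of_mem_sing h)
  -- the trace of the exact cover of `σ`
  have htr : ∀ σ : Fin e → Equiv.Perm (Fin (2 * h)),
      ∃ g i j, ∃ q₁ q₂ r₀ N₁ N₂ S₀ : Finset (Finset (Fin n)), g ≤ out ∧ C g = .and i j ∧
        (q₁.filter fun A => A.card = e + 1).card ≤ h ∧
        (q₂.filter fun A => A.card = e + 1).card ≤ h ∧
        h < (q₁.filter fun A => A.card = e + 1).card +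
          (q₂.filter fun A => A.card = e + 1).card ∧
        (∀ A ∈ q₁ ∪ q₂ ∪ r₀, A ∈ fam φ σ ∪ sing n) ∧
        (∀ A ∈ N₁ ∪ N₂ ∪ S₀, A.card ≠ 1) ∧
        (∀ a ∈ r₀, ¬ Occurs C a i ∧ ¬ Occurs C a j) ∧
        Cert C i q₁ N₁ ∧ Cert C j q₂ N₂ ∧
        ∀ q₁' q₂' N₁' N₂', Cert C i q₁' N₁' → Cert C j q₂' N₂' →
          Cert C out (q₁' ∪ q₂' ∪ r₀) (N₁' ∪ N₂' ∪ S₀) := by
    intro σ
    have h1 : eval C (fun A => decide (A ∈ fam φ σ ∪ sing n)) out := by
      refine (hC _ ?_).1 (fam_sing_cover φ σ)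
      apply allowed_union
      intro A hA
      exact hcard σ A (Finset.mem_union_left _ hA)
    obtain ⟨P, N, hc, hp, hnn⟩ := cert_of_eval _ h1
    have hP : ∀ A ∈ P, A ∈ fam φ σ ∪ sing n := fun A hA => by simpa using hp A hA
    have hN : ∀ A ∈ N, A.card ≠ 1 := by
      intro A hA h'
      have h2 := hnn A hA
      have h3 : A ∈ fam φ σ ∪ sing n := Finset.mem_union_right _ (mem_sing_of_card h')
      simp only [decide_eq_false_iff_not] at h2
      exact h2 h3
    have h2 := cover_of_cert hC hdec hc (fun A hA => hcard σ A (hP A hA)) hN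
    -- the certificate contains more than `h` blocks
    have h3 := uncovered (d := e + 1) (m := 2 * h) (by omega) hn
      (allowed_union (fun A hA => hcard σ A (hP A hA))) h2
      (univ.filter fun u => block φ σ (idx φ σ u) ∈ P) (by
        intro A hA hAc u hu
        rw [Finset.mem_filter]
        refine ⟨Finset.mem_univ _, ?_⟩
        have h4 : A ∈ P := by
          rcases Finset.mem_union.1 hA with h | h
          · exact h
          · have := card_of_mem_sing h
            omega
        obtain ⟨i, rfl⟩ := (mem_fam φ σ A).1 (h1mem σ A (hP A h4) hAc)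
        rw [mem_block] at hu
        rw [hu]; exact h4)
    have h4 : (univ.filter fun u => block φ σ (idx φ σ u) ∈ P).card ≤
        (e + 1) * (P.filter fun A => A.card = e + 1).card := by
      have h5 : (univ.filter fun u => block φ σ (idx φ σ u) ∈ P) ⊆
          (P.filter fun A => A.card = e + 1).biUnion id := by
        intro u hu
        rw [Finset.mem_filter] at hu
        rw [Finset.mem_biUnion]
        refine ⟨block φ σ (idx φ σ u), ?_, (mem_block φ σ _ _).2 rfl⟩
        rw [Finset.mem_filter]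
        exact ⟨hu.2, card_block φ σ _⟩
      refine (Finset.card_le_card h5).trans (Finset.card_biUnion_le.trans ?_)
      calc ∑ A ∈ P.filter (fun A => A.card = e + 1), (id A).card
          = ∑ A ∈ P.filter (fun A => A.card = e + 1), (e + 1) := by
            apply Finset.sum_congr rfl
            intro A hA
            exact (Finset.mem_filter.1 hA).2
        _ = (e + 1) * (P.filter fun A => A.card = e + 1).card := by
            rw [Finset.sum_const, smul_eq_mul, mul_comm]
        _ ≤ _ := le_rfl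
    have h5 : h < (P.filter fun A => A.card = e + 1).card := by
      by_contra hcon
      rw [not_lt] at hcon
      have h6 : (univ \ (univ.filter fun u => block φ σ (idx φ σ u) ∈ P)).card +
          (univ.filter fun u => block φ σ (idx φ σ u) ∈ P).card = n := by
        rw [Finset.card_sdiff_add_card_eq_card (Finset.subset_univ _), Finset.card_univ,
          Fintype.card_fin]
      set a := (univ \ (univ.filter fun u => block φ σ (idx φ σ u) ∈ P)).card
      set b := (univ.filter fun u => block φ σ (idx φ σ u) ∈ P).card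
      have h7 : b ≤ (e + 1) * h := h4.trans (Nat.mul_le_mul_left _ hcon)
      have h8 : (e + 1) * h ≤ a := by
        have : a + b = (e + 1) * (2 * h) := by rw [h6, hn]
        nlinarith
      simp only [Nat.add_sub_cancel] at h3
      have h9 : (e + 1) * h * e + (e + 1) * (2 * h) ≤ (e + 1) * K := by
        refine le_trans ?_ h3
        gcongr
      have h10 : (e + 1) * ((e + 2) * h) ≤ (e + 1) * K := by
        refine le_trans (le_of_eq ?_) h9
        ring
      have h11 := Nat.le_of_mul_le_mul_left h10 (by omega)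
      omega
    obtain ⟨g, i, j, q₁, N₁, q₂, N₂, r₀, S₀, a1, a2, a3, a4, a5, a6, a7, a8, a9, a10, a11⟩ :=
      trace_gap C out h hh (fun A => A.card = e + 1) hdec out P N ∅ ∅ le_rfl hc h5
        (fun a ha => absurd ha (Finset.notMem_empty _)) (fun P' N' hq' => by simpa using hq')
    refine ⟨g, i, j, q₁, q₂, r₀, N₁, N₂, S₀, a1, a2, a5, a6, a7, ?_, ?_, a10, a3, a4, ?_⟩
    · intro A hA
      rw [← a8, Finset.union_empty] at hA
      exact hP A hA
    · intro A hA
      rw [← a9, Finset.union_empty] at hA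
      exact hN A hA
    · intro q₁' q₂' N₁' N₂' b1 b2
      exact a11 q₁' N₁' q₂' N₂' b1 b2
  choose g i j q₁ q₂ r₀ N₁ N₂ S₀ hg1 hg2 hq₁ hq₂ hq₁₂ hsub hneg hocc hm₁ hm₂ henv using htr
  have hd12 : ∀ σ, ∀ A ∈ q₁ σ, A ∉ q₂ σ := by
    intro σ A h1 h2
    exact hdec (g σ) (hg1 σ) _ _ (hg2 σ) A
      ⟨occurs_of_cert (hm₁ σ) A (Or.inl h1), occurs_of_cert (hm₂ σ) A (Or.inl h2)⟩
  have hd10 : ∀ σ, ∀ A ∈ q₁ σ, A ∉ r₀ σ := by
    intro σ A h1 h2
    exact (hocc σ A h2).1 (occurs_of_cert (hm₁ σ) A (Or.inl h1))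
  have hd20 : ∀ σ, ∀ A ∈ q₂ σ, A ∉ r₀ σ := by
    intro σ A h1 h2
    exact (hocc σ A h2).2 (occurs_of_cert (hm₂ σ) A (Or.inl h1))
  -- the unions
  let W₁ : (Fin e → Equiv.Perm (Fin (2 * h))) → Finset (Fin n) := fun σ =>
    univ.filter fun u => block φ σ (idx φ σ u) ∈ q₁ σ
  let W₂ : (Fin e → Equiv.Perm (Fin (2 * h))) → Finset (Fin n) := fun σ =>
    univ.filter fun u => block φ σ (idx φ σ u) ∈ q₂ σ
  set ν := (e + 1) * (K - 2 * h) / e with hν
  -- mixing two certificates
  have hmix : ∀ (Q : Finset (Finset (Fin n))) (N : Finset (Finset (Fin n))) (D : Finset (Fin n)),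
      Cert C out Q N → (∀ A ∈ Q, A.card = e + 1 ∨ A.card = 1) → (∀ A ∈ N, A.card ≠ 1) →
      (∀ A ∈ Q, A.card = e + 1 → ∀ u ∈ D, u ∉ A) → D.card ≤ ν := by
    intro Q N D hQ hQc hNc hD
    have h1 := cover_of_cert hC hdec hQ hQc hNc
    have h2 := uncovered (d := e + 1) (m := 2 * h) (by omega) hn (allowed_union hQc) h1
      (univ \ D) (by
        intro A hA hAc u hu
        rw [Finset.mem_sdiff]
        refine ⟨Finset.mem_univ _, fun huD => ?_⟩
        have h4 : A ∈ Q := by
          rcases Finset.mem_union.1 hA with h | h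
          · exact h
          · have := card_of_mem_sing h
            omega
        exact hD A h4 hAc u huD hu)
    have h3 : univ \ (univ \ D) = D := by
      ext u
      simp
    rw [h3] at h2
    simp only [Nat.add_sub_cancel] at h2
    rw [hν, Nat.le_div_iff_mul_le (by omega), Nat.mul_sub]
    omega
  have hsub1 : ∀ σ, ∀ A ∈ q₁ σ, A ∈ fam φ σ ∪ sing n := fun σ A hA =>
    hsub σ A (Finset.mem_union_left _ (Finset.mem_union_left _ hA))
  have hsub2 : ∀ σ, ∀ A ∈ q₂ σ, A ∈ fam φ σ ∪ sing n := fun σ A hA =>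
    hsub σ A (Finset.mem_union_left _ (Finset.mem_union_right _ hA))
  have hsub0 : ∀ σ, ∀ A ∈ r₀ σ, A ∈ fam φ σ ∪ sing n := fun σ A hA =>
    hsub σ A (Finset.mem_union_right _ hA)
  have hneg1 : ∀ σ, ∀ A ∈ N₁ σ, A.card ≠ 1 := fun σ A hA =>
    hneg σ A (Finset.mem_union_left _ (Finset.mem_union_left _ hA))
  have hneg2 : ∀ σ, ∀ A ∈ N₂ σ, A.card ≠ 1 := fun σ A hA =>
    hneg σ A (Finset.mem_union_left _ (Finset.mem_union_right _ hA))
  have hneg0 : ∀ σ, ∀ A ∈ S₀ σ, A.card ≠ 1 := fun σ A hA =>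
    hneg σ A (Finset.mem_union_right _ hA)
  have hij : ∀ σ τ, g σ = g τ → i σ = i τ ∧ j σ = j τ := by
    intro σ τ hgg
    have h1 := hg2 σ
    rw [hgg, hg2 τ] at h1
    injection h1 with h2 h3
    exact ⟨h2.symm, h3.symm⟩
  have hW₁ : ∀ σ τ, g σ = g τ → (W₁ σ \ W₁ τ).card ≤ ν := by
    intro σ τ hgg
    obtain ⟨hi, hj⟩ := hij σ τ hgg
    refine hmix (q₁ τ ∪ q₂ σ ∪ r₀ σ) (N₁ τ ∪ N₂ σ ∪ S₀ σ) _
      (henv σ _ _ _ _ (by rw [hi]; exact hm₁ τ) (hm₂ σ)) ?_ ?_ ?_
    · intro A hA
      rcases Finset.mem_union.1 hA with h | h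
      · rcases Finset.mem_union.1 h with h | h
        · exact hcard τ A (hsub1 τ A h)
        · exact hcard σ A (hsub2 σ A h)
      · exact hcard σ A (hsub0 σ A h)
    · intro A hA
      rcases Finset.mem_union.1 hA with h | h
      · rcases Finset.mem_union.1 h with h | h
        · exact hneg1 τ A h
        · exact hneg2 σ A h
      · exact hneg0 σ A h
    · intro A hA hAc u hu huA
      rw [Finset.mem_sdiff, Finset.mem_filter, Finset.mem_filter] at hu
      obtain ⟨⟨_, hu1⟩, hu2⟩ := hu
      have hu3 : block φ τ (idx φ τ u) ∉ q₁ τ := fun h' => hu2 ⟨Finset.mem_univ _, h'⟩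
      rcases Finset.mem_union.1 hA with h | h
      · rcases Finset.mem_union.1 h with h | h
        · obtain ⟨a, rfl⟩ := (mem_fam φ τ A).1 (h1mem τ A (hsub1 τ A h) hAc)
          rw [mem_block] at huA
          rw [huA] at hu3
          exact hu3 h
        · obtain ⟨a, rfl⟩ := (mem_fam φ σ A).1 (h1mem σ A (hsub2 σ A h) hAc)
          rw [mem_block] at huA
          rw [huA] at hu1
          exact hd12 σ _ hu1 h
      · obtain ⟨a, rfl⟩ := (mem_fam φ σ A).1 (h1mem σ A (hsub0 σ A h) hAc)
        rw [mem_block] at huA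
        rw [huA] at hu1
        exact hd10 σ _ hu1 h
  have hW₂ : ∀ σ τ, g σ = g τ → (W₂ σ \ W₂ τ).card ≤ ν := by
    intro σ τ hgg
    obtain ⟨hi, hj⟩ := hij σ τ hgg
    refine hmix (q₁ σ ∪ q₂ τ ∪ r₀ σ) (N₁ σ ∪ N₂ τ ∪ S₀ σ) _
      (henv σ _ _ _ _ (hm₁ σ) (by rw [hj]; exact hm₂ τ)) ?_ ?_ ?_
    · intro A hA
      rcases Finset.mem_union.1 hA with h | h
      · rcases Finset.mem_union.1 h with h | h
        · exact hcard σ A (hsub1 σ A h)
        · exact hcard τ A (hsub2 τ A h)
      · exact hcard σ A (hsub0 σ A h)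
    · intro A hA
      rcases Finset.mem_union.1 hA with h | h
      · rcases Finset.mem_union.1 h with h | h
        · exact hneg1 σ A h
        · exact hneg2 τ A h
      · exact hneg0 σ A h
    · intro A hA hAc u hu huA
      rw [Finset.mem_sdiff, Finset.mem_filter, Finset.mem_filter] at hu
      obtain ⟨⟨_, hu1⟩, hu2⟩ := hu
      have hu3 : block φ τ (idx φ τ u) ∉ q₂ τ := fun h' => hu2 ⟨Finset.mem_univ _, h'⟩
      rcases Finset.mem_union.1 hA with h | h
      · rcases Finset.mem_union.1 h with h | h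
        · obtain ⟨a, rfl⟩ := (mem_fam φ σ A).1 (h1mem σ A (hsub1 σ A h) hAc)
          rw [mem_block] at huA
          rw [huA] at hu1
          exact hd12 σ _ h hu1
        · obtain ⟨a, rfl⟩ := (mem_fam φ τ A).1 (h1mem τ A (hsub2 τ A h) hAc)
          rw [mem_block] at huA
          rw [huA] at hu3
          exact hu3 h
      · obtain ⟨a, rfl⟩ := (mem_fam φ σ A).1 (h1mem σ A (hsub0 σ A h) hAc)
        rw [mem_block] at huA
        rw [huA] at hu1
        exact hd20 σ _ hu1 h
  -- the colouring of the blocks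
  let col : (Fin e → Equiv.Perm (Fin (2 * h))) → Fin (2 * h) → Fin 3 := fun σ a =>
    if block φ σ a ∈ q₁ σ then 0 else if block φ σ a ∈ q₂ σ then 1 else 2
  have hcol : ∀ σ τ, W₁ σ = W₁ τ → W₂ σ = W₂ τ →
      ∀ u, col σ (idx φ σ u) = col τ (idx φ τ u) := by
    intro σ τ h1 h2 u
    have hA : block φ σ (idx φ σ u) ∈ q₁ σ ↔ block φ τ (idx φ τ u) ∈ q₁ τ := by
      have := congrArg (fun S : Finset (Fin n) => u ∈ S) h1
      simpa [W₁] using this
    have hB : block φ σ (idx φ σ u) ∈ q₂ σ ↔ block φ τ (idx φ τ u) ∈ q₂ τ := by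
      have := congrArg (fun S : Finset (Fin n) => u ∈ S) h2
      simpa [W₂] using this
    simp only [col, hA, hB]
  -- sizes of the colour classes
  have hsize : ∀ (σ) (q : Finset (Finset (Fin n))), (∀ A ∈ q, A ∈ fam φ σ ∪ sing n) →
      (univ.filter fun a => block φ σ a ∈ q).card = (q.filter fun A => A.card = e + 1).card := by
    intro σ q hsub
    apply Finset.card_bij (fun a _ => block φ σ a)
    · intro a ha
      rw [Finset.mem_filter] at ha ⊢
      exact ⟨ha.2, card_block φ σ a⟩
    · intro a _ b _ hab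
      exact block_injective φ σ hab
    · intro A hA
      rw [Finset.mem_filter] at hA
      obtain ⟨a, rfl⟩ := (mem_fam φ σ A).1 (h1mem σ A (hsub A hA.1) hA.2)
      exact ⟨a, by simpa using hA.1, rfl⟩
  have hc0 : ∀ σ, (univ.filter fun a => col σ a = 0).card =
      ((q₁ σ).filter fun A => A.card = e + 1).card := by
    intro σ
    rw [← hsize σ (q₁ σ) (hsub1 σ)]
    congr 1
    ext a
    simp only [Finset.mem_filter, Finset.mem_univ, true_and, col]
    split_ifs <;> simp_all
  have hc1 : ∀ σ, (univ.filter fun a => col σ a = 1).card =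
      ((q₂ σ).filter fun A => A.card = e + 1).card := by
    intro σ
    rw [← hsize σ (q₂ σ) (hsub2 σ)]
    congr 1
    ext a
    simp only [Finset.mem_filter, Finset.mem_univ, true_and, col]
    by_cases h1 : block φ σ a ∈ q₁ σ
    · have h2 : block φ σ a ∉ q₂ σ := hd12 σ _ h1
      simp [h1, h2]
    · by_cases h2 : block φ σ a ∈ q₂ σ <;> simp [h1, h2]
  -- the number of `σ` with the same unions
  have hfib : ∀ σ₀ : Fin e → Equiv.Perm (Fin (2 * h)),
      (univ.filter fun τ => (g τ, W₁ τ, W₂ τ) = (g σ₀, W₁ σ₀, W₂ σ₀)).card ≤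
        (h.factorial * h.factorial) ^ e := by
    intro σ₀
    have hst := stab_bound (m := 2 * h) (h := h) rfl (col σ₀) (by rw [hc0]; exact hq₁ σ₀)
      (by rw [hc1]; exact hq₂ σ₀) (by rw [hc0, hc1]; exact (hq₁₂ σ₀).le)
    have h1 : ∀ τ, (g τ, W₁ τ, W₂ τ) = (g σ₀, W₁ σ₀, W₂ σ₀) → ∀ k : Fin e,
        col σ₀ ∘ ((σ₀ k).trans (τ k).symm : Equiv.Perm (Fin (2 * h))) = col σ₀ := by
      intro τ hτ k
      obtain ⟨_, hτ2⟩ := Prod.mk.inj hτ
      obtain ⟨hτ3, hτ4⟩ := Prod.mk.inj hτ2
      have h2 : ∀ a, col τ a = col σ₀ a := by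
        intro a
        have := hcol τ σ₀ hτ3 hτ4 (φ (0, a))
        rwa [idx_zero, idx_zero] at this
      funext a
      have h3 := hcol τ σ₀ hτ3 hτ4 (φ (k.succ, σ₀ k a))
      rw [idx_succ, idx_succ, Equiv.symm_apply_apply, h2] at h3
      exact h3
    let f : {τ // (g τ, W₁ τ, W₂ τ) = (g σ₀, W₁ σ₀, W₂ σ₀)} →
        (Fin e → {ρ : Equiv.Perm (Fin (2 * h)) // col σ₀ ∘ ρ = col σ₀}) :=
      fun τ k => ⟨(σ₀ k).trans (τ.1 k).symm, h1 τ.1 τ.2 k⟩
    have hf : Function.Injective f := by
      intro τ τ' hττ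
      apply Subtype.ext
      funext k
      have h2 := congrArg Subtype.val (congrFun hττ k)
      have h3 : (τ.1 k).symm = (τ'.1 k).symm := by
        ext a
        have := congrArg (fun ρ : Equiv.Perm (Fin (2 * h)) => (ρ ((σ₀ k).symm a) : ℕ)) h2
        simpa [f] using this
      simpa using congrArg Equiv.symm h3
    have h2 := Fintype.card_le_of_injective f hf
    rw [Fintype.card_pi, Finset.prod_const, Finset.card_univ, Fintype.card_fin] at h2
    rw [Fintype.card_subtype] at h2
    exact h2.trans (Nat.pow_le_pow_left hst e)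
  -- the number of triples
  set I := (univ : Finset (Fin e → Equiv.Perm (Fin (2 * h)))).image
    (fun τ => (g τ, W₁ τ, W₂ τ)) with hI
  have himg : (I.image Prod.fst).card ≤ numAnd C out := by
    unfold numAnd
    rw [← Set.ncard_coe_finset]
    apply Set.ncard_le_ncard
    · intro b hb
      obtain ⟨x, hx, rfl⟩ := Finset.mem_image.1 (Finset.mem_coe.1 hb)
      obtain ⟨σ, _, rfl⟩ := Finset.mem_image.1 hx
      exact ⟨hg1 σ, i σ, j σ, hg2 σ⟩
    · exact (Set.finite_le_nat out).subset (fun k hk => hk.1)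
  have hIcard : I.card ≤ numAnd C out * ball n (2 * ν) ^ 2 := by
    have h1 := Finset.card_le_mul_card_image (f := Prod.fst) I (ball n (2 * ν) ^ 2) (by
      intro b hb
      obtain ⟨x, hx, rfl⟩ := Finset.mem_image.1 hb
      obtain ⟨σ₀, _, rfl⟩ := Finset.mem_image.1 hx
      set J := I.filter (fun y => y.1 = (g σ₀, W₁ σ₀, W₂ σ₀).1) with hJ
      have h2 : J ⊆ ({g σ₀} : Finset ℕ) ×ˢ ((J.image fun y => y.2.1) ×ˢ
          (J.image fun y => y.2.2)) := by
        intro y hy
        rw [Finset.mem_product, Finset.mem_product]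
        refine ⟨?_, Finset.mem_image_of_mem _ hy, Finset.mem_image_of_mem _ hy⟩
        rw [Finset.mem_singleton]
        exact (Finset.mem_filter.1 hy).2
      have h3 : (J.image fun y => y.2.1).card ≤ ball n (2 * ν) := by
        apply card_ball (W₁ σ₀)
        intro B hB
        obtain ⟨y, hy, rfl⟩ := Finset.mem_image.1 hB
        obtain ⟨hy1, hy2⟩ := Finset.mem_filter.1 hy
        obtain ⟨τ, _, rfl⟩ := Finset.mem_image.1 hy1
        exact card_symmDiff_le _ _ _ (hW₁ _ _ hy2.symm) (hW₁ _ _ hy2)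
      have h4 : (J.image fun y => y.2.2).card ≤ ball n (2 * ν) := by
        apply card_ball (W₂ σ₀)
        intro B hB
        obtain ⟨y, hy, rfl⟩ := Finset.mem_image.1 hB
        obtain ⟨hy1, hy2⟩ := Finset.mem_filter.1 hy
        obtain ⟨τ, _, rfl⟩ := Finset.mem_image.1 hy1
        exact card_symmDiff_le _ _ _ (hW₂ _ _ hy2.symm) (hW₂ _ _ hy2)
      refine (Finset.card_le_card h2).trans ?_
      rw [Finset.card_product, Finset.card_product, Finset.card_singleton, one_mul, sq]
      exact Nat.mul_le_mul h3 h4)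
    calc I.card ≤ ball n (2 * ν) ^ 2 * (I.image Prod.fst).card := h1
      _ ≤ ball n (2 * ν) ^ 2 * numAnd C out := by gcongr
      _ = _ := by ring
  -- conclusion
  have hcount := Finset.card_le_mul_card_image (f := fun τ => (g τ, W₁ τ, W₂ τ))
    (univ : Finset (Fin e → Equiv.Perm (Fin (2 * h)))) ((h.factorial * h.factorial) ^ e) (by
      intro b hb
      obtain ⟨σ₀, _, rfl⟩ := Finset.mem_image.1 hb
      exact hfib σ₀)
  rw [← hI] at hcount
  have hcard' : (univ : Finset (Fin e → Equiv.Perm (Fin (2 * h)))).card =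
      ((2 * h).factorial) ^ e := by
    rw [Finset.card_univ, Fintype.card_pi, Finset.prod_const, Finset.card_univ, Fintype.card_fin,
      Fintype.card_perm, Fintype.card_fin]
  have hcb : (2 * h).factorial = Nat.centralBinom h * (h.factorial * h.factorial) := by
    have := Nat.choose_mul_factorial_mul_factorial (show h ≤ 2 * h by omega)
    have e1 : 2 * h - h = h := by omega
    rw [e1, ← Nat.centralBinom_eq_two_mul_choose] at this
    rw [← this]; ring
  rw [hcard', hcb, mul_pow] at hcount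
  have hpos : 0 < (h.factorial * h.factorial) ^ e := by positivity
  have h2 : (h.factorial * h.factorial) ^ e * (Nat.centralBinom h) ^ e ≤
      (h.factorial * h.factorial) ^ e * (numAnd C out * ball n (2 * ν) ^ 2) := by
    calc _ = (Nat.centralBinom h) ^ e * (h.factorial * h.factorial) ^ e := by ring
      _ ≤ _ := hcount
      _ ≤ _ := by gcongr
  exact Nat.le_of_mul_le_mul_left h2 hpos

end main

theorem explicit_gap (d h K : ℕ) (hd : 2 ≤ d) (hh : 1 ≤ h) (hK : K < (d + 1) * h)
    (C : ℕ → Gate (Finset (Fin (d * (2 * h))))) (out : ℕ) (hdec : Decomposable C out)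
    (hC : Separates C out d (2 * h) K) :
    (Nat.choose (2 * h) h) ^ (d - 1) ≤
      numAnd C out * ball (d * (2 * h)) (2 * (d * (K - 2 * h) / (d - 1))) ^ 2 := by
  obtain ⟨e, rfl⟩ := Nat.exists_eq_add_of_le' (show 1 ≤ d by omega)
  rw [← Nat.centralBinom_eq_two_mul_choose]
  exact lower_bound_gap e h (by omega) hh _ K (by nlinarith) finProdFinEquiv C out hdec hC

end Pool.Agent.Lib.MP_8fffab_lc_Gap
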