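import Pool.Agent.Lib.MP_8fffab_lc.Defs

/-!
# Approximate Set Cover: the instances

The predicate `HasCover` (the Set Cover problem itself) is the one of
`Pool.Agent.Lib.MP_8fffab_lc.Defs`.
-/

namespace Pool.Agent.Lib.MP_8fffab_lc_Gap

/-- The families `F` of subsets of the universe `{0, …, n-1}` which consist of all singletons and
of some sets with `d` elements. -/
def Allowed {n : ℕ} (d : ℕ) (F : Finset (Finset (Fin n))) : Prop :=
  (∀ A ∈ F, A.card = d ∨ A.card = 1) ∧ ∀ u : Fin n, {u} ∈ F

end Pool.Agent.Lib.MP_8fffab_lc_Gap
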