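import Pool.Agent.Lib.MP_8fffab_lc_DNNF.Defs
import Pool.Agent.Lib.MP_8fffab_lc_Gap.DefsCover

/-!
# Approximate Set Cover for decomposable Boolean circuits: definitions

The gates, the evaluation, decomposability and the number of `and` gates are defined in
`Pool.Agent.Lib.MP_8fffab_lc_DNNF.Defs`, the Set Cover problem `HasCover` in
`Pool.Agent.Lib.MP_8fffab_lc.Defs`, the instances `Allowed` in
`Pool.Agent.Lib.MP_8fffab_lc_Gap.DefsCover`.
-/

namespace Pool.Agent.Lib.MP_8fffab_lc_Gap

open Pool.Agent.Lib.MP_8fffab_lc (HasCover)
open Pool.Agent.Lib.MP_8fffab_lc_DNNF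

/-- The circuit `C` with output gate `out`, which has one input variable for each subset `A` of the
universe `{0, …, n-1}` (true if `A` is in the family), separates the families with a cover by `k`
sets from those without a cover by `K` sets: for every family `F` which consists of all singletons
and of sets with `d` elements, it is true if `F` has a cover by at most `k` sets, and false if `F`
has no cover by at most `K` sets. -/
def Separates {n : ℕ} (C : ℕ → Gate (Finset (Fin n))) (out d k K : ℕ) : Prop :=
  ∀ F : Finset (Finset (Fin n)), Allowed d F →
    (HasCover F k → eval C (fun A => decide (A ∈ F)) out) ∧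
    (¬ HasCover F K → ¬ eval C (fun A => decide (A ∈ F)) out)

end Pool.Agent.Lib.MP_8fffab_lc_Gap
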