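import Pool.Agent.Lib.MP_8fffab_lc_Linear.Defs
import Pool.Agent.Lib.MP_8fffab_lc_Gap.DefsCover

/-!
# Approximate Set Cover for linear read-once programs: definitions

Linear read-once programs are defined in `Pool.Agent.Lib.MP_8fffab_lc_Linear.Defs`, the Set Cover
problem `HasCover` in `Pool.Agent.Lib.MP_8fffab_lc.Defs`, the instances `Allowed` in
`Pool.Agent.Lib.MP_8fffab_lc_Gap.DefsCover`.
-/

namespace Pool.Agent.Lib.MP_8fffab_lc_Gap

open Pool.Agent.Lib.MP_8fffab_lc Pool.Agent.Lib.MP_8fffab_lc_Linear

/-- The program `P`, which has one input variable for each subset `A` of the universe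
`{0, …, n-1}` (the bit telling whether `A` is in the family), separates the families with a cover
by `k` sets from those without a cover by `K` sets: for every family `F` which consists of all
singletons and of sets with `d` elements, its output is non-zero if `F` has a cover by at most `k`
sets, and zero if `F` has no cover by at most `K` sets. -/
def SeparatesLin {K₀ : Type*} [Field K₀] {n w : ℕ} (P : LinProg K₀ (Finset (Fin n)) w)
    (d k K : ℕ) : Prop :=
  ∀ F : Finset (Finset (Fin n)), Allowed d F →
    (HasCover F k → P.value (fun A => decide (A ∈ F)) ≠ 0) ∧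
    (¬ HasCover F K → P.value (fun A => decide (A ∈ F)) = 0)

end Pool.Agent.Lib.MP_8fffab_lc_Gap
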