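import Pool.Agent.Lib.MP_8fffab_lc_Gap.DefsLinear
import Pool.Agent.Lib.MP_8fffab_lc_Gap.Cover
import Pool.Agent.Lib.MP_8fffab_lc_Linear.ProofLinear

namespace Pool.Agent.Lib.MP_8fffab_lc_Gap

open Finset Matrix Pool.Agent.Lib.MP_8fffab_lc Pool.Agent.Lib.MP_8fffab_lc_Linear

/-- A maximal code. -/
theorem exists_code {n : ℕ} (J : Finset (Finset (Fin n))) (r : ℕ) :
    ∃ S ⊆ J, (∀ A ∈ S, ∀ B ∈ S, A ≠ B → r < (symmDiff A B).card) ∧
      J.card ≤ S.card * ball n r := by
  classical
  set Q := J.powerset.filter fun S =>
    ∀ A ∈ S, ∀ B ∈ S, A ≠ B → r < (symmDiff A B).card with hQ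
  have hne : Q.Nonempty := ⟨∅, by simp [hQ]⟩
  obtain ⟨S, hS, hmax⟩ := Finset.exists_max_image Q Finset.card hne
  rw [hQ, Finset.mem_filter, Finset.mem_powerset] at hS
  refine ⟨S, hS.1, hS.2, ?_⟩
  have hcov : ∀ B ∈ J, ∃ A ∈ S, (symmDiff A B).card ≤ r := by
    intro B hB
    by_contra hcon
    push Not at hcon
    have hBS : B ∉ S := by
      intro h
      have := hcon B h
      simp at this
    have h1 : insert B S ∈ Q := by
      rw [hQ, Finset.mem_filter, Finset.mem_powerset]
      refine ⟨Finset.insert_subset hB hS.1, ?_⟩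
      intro A hA A' hA' hne
      rcases Finset.mem_insert.1 hA with rfl | hA
      · rcases Finset.mem_insert.1 hA' with rfl | hA'
        · exact absurd rfl hne
        · rw [symmDiff_comm]; exact hcon A' hA'
      · rcases Finset.mem_insert.1 hA' with h3 | hA'
        · rw [h3]; exact hcon A hA
        · exact hS.2 A hA A' hA' hne
    have h2 := hmax _ h1
    rw [Finset.card_insert_of_notMem hBS] at h2
    omega
  have h1 : J ⊆ S.biUnion fun A => J.filter fun B => (symmDiff A B).card ≤ r := by
    intro B hB
    obtain ⟨A, hA, hAB⟩ := hcov B hB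
    rw [Finset.mem_biUnion]
    exact ⟨A, hA, Finset.mem_filter.2 ⟨hB, hAB⟩⟩
  calc J.card ≤ _ := Finset.card_le_card h1
    _ ≤ ∑ A ∈ S, (J.filter fun B => (symmDiff A B).card ≤ r).card := Finset.card_biUnion_le
    _ ≤ ∑ A ∈ S, ball n r := by
        apply Finset.sum_le_sum
        intro A _
        apply card_ball A
        intro B hB
        exact (Finset.mem_filter.1 hB).2
    _ = S.card * ball n r := by rw [Finset.sum_const, smul_eq_mul]

section main

variable {K₀ : Type*} [Field K₀] {e h n w : ℕ} (φ : Fin (e + 1) × Fin (2 * h) ≃ Fin n)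
  {P : LinProg K₀ (Finset (Fin n)) w}

theorem value_congr (P : LinProg K₀ (Finset (Fin n)) w) {x y : Finset (Fin n) → Bool}
    (h : ∀ a ∈ P.order, x a = y a) : P.value x = P.value y := by
  unfold LinProg.value
  congr 3
  apply List.map_congr_left
  intro B hB
  rw [h B hB]

theorem fam_card (σ : Fin e → Equiv.Perm (Fin (2 * h))) {A : Finset (Fin n)} (hA : A ∈ fam φ σ) :
    A.card = e + 1 := by
  obtain ⟨i, rfl⟩ := (mem_fam φ σ A).1 hA
  exact card_block φ σ i

theorem n_eq {e h n : ℕ} (φ : Fin (e + 1) × Fin (2 * h) ≃ Fin n) : n = (e + 1) * (2 * h) := by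
  have := Fintype.card_congr φ
  simp only [Fintype.card_prod, Fintype.card_fin] at this
  exact this.symm

/-- at least `h` blocks are read -/
theorem read_blocks (he : 1 ≤ e) {K : ℕ} (hK : K < (e + 2) * h)
    (hP : SeparatesLin P (e + 1) (2 * h) K) (σ : Fin e → Equiv.Perm (Fin (2 * h))) :
    h ≤ (univ.filter fun i => block φ σ i ∈ P.order).card := by
  classical
  have hn := n_eq φ
  set Q := (fam φ σ).filter fun A => A ∈ P.order with hQ
  have hQc : ∀ A ∈ Q, A.card = e + 1 ∨ A.card = 1 := fun A hA =>
    Or.inl (fam_card φ σ (Finset.mem_filter.1 hA).1)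
  have h1 : P.value (fun A => decide (A ∈ fam φ σ ∪ sing n)) ≠ 0 :=
    (hP _ (allowed_union (fun A hA => Or.inl (fam_card φ σ hA)))).1 (fam_sing_cover φ σ)
  have h2 : P.value (fun A => decide (A ∈ Q ∪ sing n)) =
      P.value (fun A => decide (A ∈ fam φ σ ∪ sing n)) := by
    apply value_congr
    intro A hA
    simp [hQ, hA]
  have h3 : HasCover (Q ∪ sing n) K := by
    by_contra hcon
    apply h1
    rw [← h2]
    exact (hP _ (allowed_union hQc)).2 hcon
  have h4 := uncovered (d := e + 1) (m := 2 * h) (by omega) hn (allowed_union hQc) h3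
    (univ.filter fun u => block φ σ (idx φ σ u) ∈ P.order) (by
      intro A hA hAc u hu
      rw [Finset.mem_filter]
      refine ⟨Finset.mem_univ _, ?_⟩
      have h5 : A ∈ Q := by
        rcases Finset.mem_union.1 hA with h | h
        · exact h
        · have := card_of_mem_sing h
          omega
      obtain ⟨h6, h7⟩ := Finset.mem_filter.1 h5
      obtain ⟨i, rfl⟩ := (mem_fam φ σ A).1 h6
      rw [mem_block] at hu
      rw [hu]; exact h7)
  have h5 : (univ.filter fun u => block φ σ (idx φ σ u) ∈ P.order).card =
      (e + 1) * (univ.filter fun i => block φ σ i ∈ P.order).card := by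
    have h6 := card_cutU φ P σ P.order.length
    unfold cnt at h6
    rw [List.take_length] at h6
    rw [← h6]
    congr 1
    ext u
    rw [mem_cutU, List.take_length]
    simp
  by_contra hcon
  rw [not_le] at hcon
  have h6 : (univ \ (univ.filter fun u => block φ σ (idx φ σ u) ∈ P.order)).card +
      (univ.filter fun u => block φ σ (idx φ σ u) ∈ P.order).card = n := by
    rw [Finset.card_sdiff_add_card_eq_card (Finset.subset_univ _), Finset.card_univ,
      Fintype.card_fin]
  set a := (univ \ (univ.filter fun u => block φ σ (idx φ σ u) ∈ P.order)).card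
  set b := (univ.filter fun i => block φ σ i ∈ P.order).card
  rw [h5] at h6
  simp only [Nat.add_sub_cancel] at h4
  have h7 : (e + 1) * b ≤ (e + 1) * h := Nat.mul_le_mul_left _ hcon.le
  have h8 : (e + 1) * h ≤ a := by
    have : a + (e + 1) * b = (e + 1) * (2 * h) := by rw [h6, hn]
    nlinarith
  have h9 : (e + 1) * h * e + (e + 1) * (2 * h) ≤ (e + 1) * K := by
    refine le_trans ?_ h4
    gcongr
  have h10 : (e + 1) * ((e + 2) * h) ≤ (e + 1) * K := by
    refine le_trans (le_of_eq ?_) h9
    ring
  have h11 := Nat.le_of_mul_le_mul_left h10 (by omega)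
  omega

omit [Field K₀] in
/-- there is a step in which the number of blocks read becomes `h` -/
theorem exists_step_gap (σ : Fin e → Equiv.Perm (Fin (2 * h))) (h1 : 1 ≤ h)
    (h2 : h ≤ (univ.filter fun i => block φ σ i ∈ P.order).card) :
    ∃ A : Finset (Fin n), A.card = e + 1 ∧ A ∈ P.order ∧
      cnt φ P σ (P.order.idxOf A + 1) = h := by
  classical
  have hex : ∃ t, h ≤ cnt φ P σ t := by
    refine ⟨P.order.length, ?_⟩
    unfold cnt
    rw [List.take_length]
    exact h2
  obtain ⟨t, ht, hmin⟩ : ∃ t, h ≤ cnt φ P σ t ∧ ∀ s, s < t → ¬ h ≤ cnt φ P σ s :=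
    ⟨Nat.find hex, Nat.find_spec hex, fun s hs => Nat.find_min hex hs⟩
  have h0 : cnt φ P σ 0 = 0 := by simp [cnt]
  have htpos : t ≠ 0 := by rintro rfl; omega
  obtain ⟨s, rfl⟩ := Nat.exists_eq_succ_of_ne_zero htpos
  have hs := hmin s (Nat.lt_succ_self s)
  have hle := cnt_succ_le φ (P := P) σ s
  have hs1 : cnt φ P σ (s + 1) = h := by
    have : h ≤ cnt φ P σ (s + 1) := ht
    omega
  have hslt : s < P.order.length := by
    by_contra hcon
    apply hs
    unfold cnt at ht ⊢
    rw [List.take_of_length_le (by omega)] at ht ⊢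
    exact ht
  have hblk : ∃ i, block φ σ i = P.order[s] := by
    by_contra hb
    push Not at hb
    apply hs
    refine ht.trans (Finset.card_le_card ?_)
    intro j hj
    rw [Finset.mem_filter, Nat.succ_eq_add_one, List.take_add_one, List.mem_append] at hj
    rw [Finset.mem_filter]
    rcases hj.2 with h' | h'
    · exact ⟨Finset.mem_univ _, h'⟩
    · rw [List.getElem?_eq_getElem hslt] at h'
      simp only [Option.toList_some, List.mem_singleton] at h'
      exact absurd h' (hb j)
  obtain ⟨i, hi⟩ := hblk
  refine ⟨P.order[s], by rw [← hi]; exact card_block φ σ i, List.getElem_mem hslt, ?_⟩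
  rw [P.nodup.idxOf_getElem]
  exact hs1

end main

theorem lower_bound_linear_gap {K₀ : Type*} [Field K₀] (e h : ℕ) (he : 1 ≤ e) (hh : 1 ≤ h)
    (n w K : ℕ) (hK : K < (e + 2) * h) (φ : Fin (e + 1) × Fin (2 * h) ≃ Fin n)
    (P : LinProg K₀ (Finset (Fin n)) w) (hP : SeparatesLin P (e + 1) (2 * h) K) :
    (Nat.centralBinom h) ^ e ≤
      n.choose (e + 1) * (w * ball n (2 * ((e + 1) * (K - 2 * h) / e))) := by
  classical
  have hn := n_eq φ
  set ν := (e + 1) * (K - 2 * h) / e with hν
  choose D hD1 hD2 hD3 using fun σ : Fin e → Equiv.Perm (Fin (2 * h)) =>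
    exists_step_gap φ σ hh (read_blocks φ he hK hP σ)
  -- the number of `σ` with a given `D` and a given cut set
  have hfib : ∀ σ₀ : Fin e → Equiv.Perm (Fin (2 * h)),
      (univ.filter fun τ => (D τ, cutU φ P τ (P.order.idxOf (D τ) + 1)) =
        (D σ₀, cutU φ P σ₀ (P.order.idxOf (D σ₀) + 1))).card ≤
        (h.factorial * h.factorial) ^ e := by
    intro σ₀
    set t := P.order.idxOf (D σ₀) + 1 with ht
    let col : (Fin e → Equiv.Perm (Fin (2 * h))) → Fin (2 * h) → Fin 3 := fun σ a =>
      if block φ σ a ∈ P.order.take t then 0 else 1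
    have hc0 : (univ.filter fun a => col σ₀ a = 0).card = h := by
      have h1 : (univ.filter fun a => col σ₀ a = 0) =
          univ.filter fun i => block φ σ₀ i ∈ P.order.take t := by
        ext a
        simp only [Finset.mem_filter, Finset.mem_univ, true_and, col]
        split_ifs with h2 <;> simp [h2]
      rw [h1]
      exact hD3 σ₀
    have hc1 : (univ.filter fun a => col σ₀ a = 1).card = h := by
      have h1 : (univ.filter fun a => col σ₀ a = 1) =
          univ.filter fun a => ¬ col σ₀ a = 0 := by
        ext a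
        simp only [Finset.mem_filter, Finset.mem_univ, true_and, col]
        split_ifs with h2 <;> simp
      have h2 := Finset.card_filter_add_card_filter_not (s := (univ : Finset (Fin (2 * h))))
        (p := fun a => col σ₀ a = 0)
      rw [Finset.card_univ, Fintype.card_fin, hc0] at h2
      rw [h1]
      omega
    have hst := stab_bound (m := 2 * h) (h := h) rfl (col σ₀) hc0.le hc1.le (by omega)
    have hcol : ∀ τ, (D τ, cutU φ P τ (P.order.idxOf (D τ) + 1)) =
        (D σ₀, cutU φ P σ₀ (P.order.idxOf (D σ₀) + 1)) →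
        ∀ u, col τ (idx φ τ u) = col σ₀ (idx φ σ₀ u) := by
      intro τ hτ u
      have h1 : D τ = D σ₀ := (Prod.mk.inj hτ).1
      have h2 : cutU φ P τ (P.order.idxOf (D τ) + 1) = cutU φ P σ₀ (P.order.idxOf (D σ₀) + 1) :=
        (Prod.mk.inj hτ).2
      rw [h1, ← ht] at h2
      have h3 : u ∈ cutU φ P τ t ↔ u ∈ cutU φ P σ₀ t := by rw [h2]
      rw [mem_cutU, mem_cutU] at h3
      simp only [col, h3]
    have h1 : ∀ τ, (D τ, cutU φ P τ (P.order.idxOf (D τ) + 1)) =
        (D σ₀, cutU φ P σ₀ (P.order.idxOf (D σ₀) + 1)) → ∀ k : Fin e,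
        col σ₀ ∘ ((σ₀ k).trans (τ k).symm : Equiv.Perm (Fin (2 * h))) = col σ₀ := by
      intro τ hτ k
      have h2 : ∀ a, col τ a = col σ₀ a := by
        intro a
        have := hcol τ hτ (φ (0, a))
        rwa [idx_zero, idx_zero] at this
      funext a
      have h3 := hcol τ hτ (φ (k.succ, σ₀ k a))
      rw [idx_succ, idx_succ, Equiv.symm_apply_apply, h2] at h3
      exact h3
    let f : {τ // (D τ, cutU φ P τ (P.order.idxOf (D τ) + 1)) =
        (D σ₀, cutU φ P σ₀ (P.order.idxOf (D σ₀) + 1))} →
        (Fin e → {ρ : Equiv.Perm (Fin (2 * h)) // col σ₀ ∘ ρ = col σ₀}) :=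
      fun τ k => ⟨(σ₀ k).trans (τ.1 k).symm, h1 τ.1 τ.2 k⟩
    have hf : Function.Injective f := by
      intro τ τ' hττ
      apply Subtype.ext
      funext k
      have h2 := congrArg Subtype.val (congrFun hττ k)
      have h3 : (τ.1 k).symm = (τ'.1 k).symm := by
        ext a
        have := congrArg (fun ρ : Equiv.Perm (Fin (2 * h)) => (ρ ((σ₀ k).symm a) : ℕ)) h2
        simpa [f] using this
      simpa using congrArg Equiv.symm h3
    have h2 := Fintype.card_le_of_injective f hf
    rw [Fintype.card_pi, Finset.prod_const, Finset.card_univ, Fintype.card_fin] at h2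
    rw [Fintype.card_subtype] at h2
    exact h2.trans (Nat.pow_le_pow_left hst e)
  -- the number of pairs (D, cut set)
  have hpairs : (univ.image fun τ : Fin e → Equiv.Perm (Fin (2 * h)) =>
      (D τ, cutU φ P τ (P.order.idxOf (D τ) + 1))).card ≤
        n.choose (e + 1) * (w * ball n (2 * ν)) := by
    set I := univ.image fun τ : Fin e → Equiv.Perm (Fin (2 * h)) =>
      (D τ, cutU φ P τ (P.order.idxOf (D τ) + 1)) with hI
    have h1 : ∀ p ∈ I, p.1 ∈ (univ : Finset (Fin n)).powersetCard (e + 1) := by
      intro p hp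
      obtain ⟨τ, _, rfl⟩ := Finset.mem_image.1 hp
      rw [Finset.mem_powersetCard]
      exact ⟨Finset.subset_univ _, hD1 τ⟩
    have h2 : ∀ A ∈ (univ : Finset (Fin n)).powersetCard (e + 1),
        (I.filter fun p => p.1 = A).card ≤ w * ball n (2 * ν) := by
      intro A _
      set t := P.order.idxOf A + 1 with ht
      set J := (I.filter fun p => p.1 = A).image Prod.snd with hJ
      have hJcard : (I.filter fun p => p.1 = A).card = J.card := by
        rw [hJ, Finset.card_image_of_injOn]
        intro p hp q hq hpq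
        have hp' := (Finset.mem_filter.1 (Finset.mem_coe.1 hp)).2
        have hq' := (Finset.mem_filter.1 (Finset.mem_coe.1 hq)).2
        exact Prod.ext (hp'.trans hq'.symm) hpq
      obtain ⟨S, hSJ, hScode, hScard⟩ := exists_code J (2 * ν)
      have h3 : ∀ W : S, ∃ τ : Fin e → Equiv.Perm (Fin (2 * h)),
          cnt φ P τ t = h ∧ cutU φ P τ t = W.1 := by
        rintro ⟨W, hW⟩
        obtain ⟨p, hp, rfl⟩ := Finset.mem_image.1 (hSJ hW)
        obtain ⟨hp1, hp2⟩ := Finset.mem_filter.1 hp
        obtain ⟨τ, _, rfl⟩ := Finset.mem_image.1 hp1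
        refine ⟨τ, ?_, ?_⟩
        · have := hD3 τ
          rw [show D τ = A from hp2] at this
          exact this
        · show _ = cutU φ P τ (P.order.idxOf (D τ) + 1)
          rw [show D τ = A from hp2]
      choose τ hτ1 hτ2 using h3
      have h4 := card_le_of_dual (K := K₀) (w := w)
        (fun p : S => pre P t (fun B => decide (B ∈ fam φ (τ p) ∪ sing n)))
        (fun p => post P t (fun B => decide (B ∈ fam φ (τ p) ∪ sing n))) ?_ ?_
      · rw [Fintype.card_coe] at h4
        rw [hJcard]
        exact hScard.trans (Nat.mul_le_mul_right _ h4)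
      · intro p
        show pre P t (fun B => decide (B ∈ fam φ (τ p) ∪ sing n)) ⬝ᵥ
          post P t (fun B => decide (B ∈ fam φ (τ p) ∪ sing n)) ≠ 0
        rw [← value_eq]
        exact (hP _ (allowed_union (fun A hA => Or.inl (fam_card φ _ hA)))).1
          (fam_sing_cover φ (τ p))
      · intro p q hpq
        show pre P t (fun B => decide (B ∈ fam φ (τ p) ∪ sing n)) ⬝ᵥ
          post P t (fun B => decide (B ∈ fam φ (τ q) ∪ sing n)) = 0
        -- the family which is `τ p` up to step `t` and `τ q` after it
        set F : Finset (Finset (Fin n)) :=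
          ((fam φ (τ p)).filter fun B => B ∈ P.order.take t) ∪
            ((fam φ (τ q)).filter fun B => B ∉ P.order.take t) with hF
        have hFc : ∀ A ∈ F, A.card = e + 1 ∨ A.card = 1 := by
          intro B hB
          rcases Finset.mem_union.1 hB with h8 | h8
          · exact Or.inl (fam_card φ _ (Finset.mem_filter.1 h8).1)
          · exact Or.inl (fam_card φ _ (Finset.mem_filter.1 h8).1)
        have h5 : pre P t (fun B => decide (B ∈ fam φ (τ p) ∪ sing n)) =
            pre P t (fun B => decide (B ∈ F ∪ sing n)) := by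
          apply pre_congr
          intro B hB
          simp [hF, hB]
        have h6 : post P t (fun B => decide (B ∈ fam φ (τ q) ∪ sing n)) =
            post P t (fun B => decide (B ∈ F ∪ sing n)) := by
          apply post_congr
          intro B hB
          have hB' : B ∉ P.order.take t := fun h => not_mem_drop P h hB
          simp [hF, hB']
        rw [h5, h6, ← value_eq]
        refine (hP _ (allowed_union hFc)).2 ?_
        intro hcov
        have hUcard : (cutU φ P (τ q) t).card = (cutU φ P (τ p) t).card := by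
          rw [card_cutU, card_cutU, hτ1, hτ1]
        have h7 := uncovered (d := e + 1) (m := 2 * h) (by omega) hn (allowed_union hFc) hcov
          (univ \ (cutU φ P (τ q) t \ cutU φ P (τ p) t)) (by
            intro B hB hBc u hu
            rw [Finset.mem_sdiff, Finset.mem_sdiff]
            refine ⟨Finset.mem_univ _, ?_⟩
            rintro ⟨hu1, hu2⟩
            rw [mem_cutU] at hu1 hu2
            have h4 : B ∈ F := by
              rcases Finset.mem_union.1 hB with h | h
              · exact h
              · have := card_of_mem_sing h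
                omega
            rcases Finset.mem_union.1 h4 with h8 | h8
            · obtain ⟨h9, h10⟩ := Finset.mem_filter.1 h8
              obtain ⟨i, rfl⟩ := (mem_fam φ _ B).1 h9
              rw [mem_block] at hu
              rw [hu] at hu2
              exact hu2 h10
            · obtain ⟨h9, h10⟩ := Finset.mem_filter.1 h8
              obtain ⟨i, rfl⟩ := (mem_fam φ _ B).1 h9
              rw [mem_block] at hu
              rw [hu] at hu1
              exact h10 hu1)
        have h8 : univ \ (univ \ (cutU φ P (τ q) t \ cutU φ P (τ p) t)) =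
            cutU φ P (τ q) t \ cutU φ P (τ p) t := by
          ext u
          simp
        rw [h8] at h7
        simp only [Nat.add_sub_cancel] at h7
        have h9 : (cutU φ P (τ q) t \ cutU φ P (τ p) t).card ≤ ν := by
          rw [hν, Nat.le_div_iff_mul_le (by omega), Nat.mul_sub]
          omega
        have h10 : (cutU φ P (τ p) t \ cutU φ P (τ q) t).card =
            (cutU φ P (τ q) t \ cutU φ P (τ p) t).card := by
          have e1 := Finset.card_sdiff_add_card_inter (cutU φ P (τ p) t) (cutU φ P (τ q) t)
          have e2 := Finset.card_sdiff_add_card_inter (cutU φ P (τ q) t) (cutU φ P (τ p) t)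
          rw [Finset.inter_comm] at e2
          omega
        have h11 := card_symmDiff_le _ _ ν (h10.trans_le h9) h9
        have h12 := hScode _ p.2 _ q.2 (fun h' => hpq (Subtype.ext h'))
        rw [← hτ2 p, ← hτ2 q] at h12
        omega
    rw [Finset.card_eq_sum_card_fiberwise (f := Prod.fst) (s := I)
      (t := (univ : Finset (Fin n)).powersetCard (e + 1)) h1]
    refine (Finset.sum_le_sum h2).trans ?_
    rw [Finset.sum_const, Finset.card_powersetCard, Finset.card_univ, Fintype.card_fin,
      smul_eq_mul]
  -- conclusion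
  have hcount := Finset.card_le_mul_card_image
    (f := fun τ : Fin e → Equiv.Perm (Fin (2 * h)) =>
      (D τ, cutU φ P τ (P.order.idxOf (D τ) + 1)))
    (univ : Finset (Fin e → Equiv.Perm (Fin (2 * h)))) ((h.factorial * h.factorial) ^ e) (by
      intro b hb
      obtain ⟨σ₀, _, rfl⟩ := Finset.mem_image.1 hb
      exact hfib σ₀)
  have hcard : (univ : Finset (Fin e → Equiv.Perm (Fin (2 * h)))).card =
      ((2 * h).factorial) ^ e := by
    rw [Finset.card_univ, Fintype.card_pi, Finset.prod_const, Finset.card_univ, Fintype.card_fin,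
      Fintype.card_perm, Fintype.card_fin]
  have hcb : (2 * h).factorial = Nat.centralBinom h * (h.factorial * h.factorial) := by
    have := Nat.choose_mul_factorial_mul_factorial (show h ≤ 2 * h by omega)
    have e1 : 2 * h - h = h := by omega
    rw [e1, ← Nat.centralBinom_eq_two_mul_choose] at this
    rw [← this]; ring
  rw [hcard, hcb, mul_pow] at hcount
  have hpos : 0 < (h.factorial * h.factorial) ^ e := by positivity
  have h2 : (h.factorial * h.factorial) ^ e * (Nat.centralBinom h) ^ e ≤
      (h.factorial * h.factorial) ^ e * (n.choose (e + 1) * (w * ball n (2 * ν))) := by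
    calc _ = (Nat.centralBinom h) ^ e * (h.factorial * h.factorial) ^ e := by ring
      _ ≤ _ := hcount
      _ ≤ _ := by gcongr
  exact Nat.le_of_mul_le_mul_left h2 hpos

theorem explicit_linear_gap {K₀ : Type*} [Field K₀] (d h K : ℕ) (hd : 2 ≤ d) (hh : 1 ≤ h)
    (hK : K < (d + 1) * h) (w : ℕ)
    (P : LinProg K₀ (Finset (Fin (d * (2 * h)))) w) (hP : SeparatesLin P d (2 * h) K) :
    (Nat.choose (2 * h) h) ^ (d - 1) ≤ (d * (2 * h)).choose d *
      (w * ball (d * (2 * h)) (2 * (d * (K - 2 * h) / (d - 1)))) := by
  obtain ⟨e, rfl⟩ := Nat.exists_eq_add_of_le' (show 1 ≤ d by omega)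
  rw [← Nat.centralBinom_eq_two_mul_choose]
  exact lower_bound_linear_gap e h (by omega) hh _ w K (by nlinarith) finProdFinEquiv P hP

end Pool.Agent.Lib.MP_8fffab_lc_Gap
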