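import Pool.Agent.Lib.MP_8fffab_lc_Linear.ProofUpper

namespace Pool.Agent.Lib.MP_8fffab_lc_Gap

open Finset Matrix Pool.Agent.Lib.MP_8fffab_lc Pool.Agent.Lib.MP_8fffab_lc_Linear

/-! ### The weighted dynamic program over subsets, over an infinite field -/

section upper

variable {K : Type*} [Field K] (n k : ℕ)

/-- the weighted matrix on states -/
noncomputable def dpMatW (z : K) (A : Finset (Fin n)) (β : Bool) : Matrix (St n k) (St n k) K :=
  fun s t => (if s = t then 1 else 0) +
    (if β = true ∧ s.1 ∪ A = t.1 ∧ (s.2 : ℕ) + 1 = (t.2 : ℕ) then z else 0)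

/-- the program -/
noncomputable def dpW (z : Finset (Fin n) → K) (L : List (Finset (Fin n))) (hL : L.Nodup) :
    LinProg K (Finset (Fin n)) (2 ^ n * (k + 1)) where
  order := L
  nodup := hL
  src := fun i => if (num n k).symm i = (∅, 0) then 1 else 0
  mat := fun A β => (dpMatW n k (z A) A β).submatrix (num n k).symm (num n k).symm
  snk := fun i => dpSnk K n k ((num n k).symm i)

theorem value_dpW (z : Finset (Fin n) → K) (L : List (Finset (Fin n))) (hL : L.Nodup)
    (x : Finset (Fin n) → Bool) :
    (dpW n k z L hL).value x =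
      ((L.map fun A => dpMatW n k (z A) A (x A)).prod *ᵥ dpSnk K n k) (∅, 0) := by
  unfold LinProg.value
  have h1 : ((dpW n k z L hL).order.map fun A => (dpW n k z L hL).mat A (x A)).prod =
      ((L.map fun A => dpMatW n k (z A) A (x A)).prod).submatrix (num n k).symm (num n k).symm :=
    prod_submatrix K (num n k) (fun A => dpMatW n k (z A) A (x A)) L
  rw [h1, ← dotProduct_mulVec]
  set M := (L.map fun A => dpMatW n k (z A) A (x A)).prod with hM
  have h2 : (M.submatrix (num n k).symm (num n k).symm) *ᵥ (dpW n k z L hL).snk =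
      fun i => (M *ᵥ dpSnk K n k) ((num n k).symm i) := by
    funext i
    show ∑ j, M ((num n k).symm i) ((num n k).symm j) * dpSnk K n k ((num n k).symm j) = _
    exact Equiv.sum_comp (num n k).symm (fun t => M ((num n k).symm i) t * dpSnk K n k t)
  rw [h2]
  show ∑ i, (if (num n k).symm i = (∅, 0) then (1 : K) else 0) *
    (M *ᵥ dpSnk K n k) ((num n k).symm i) = _
  rw [Equiv.sum_comp (num n k).symm (fun s => (if s = (∅, 0) then (1 : K) else 0) *
    (M *ᵥ dpSnk K n k) s)]
  simp

/-- Over an infinite field the weights can be chosen such that the value of a state is non-zero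
exactly if it can be completed. -/
theorem dpW_spec [Infinite K] (L : List (Finset (Fin n))) (hL : L.Nodup) :
    ∃ z : Finset (Fin n) → K, ∀ (x : Finset (Fin n) → Bool) (s : St n k),
      ((L.map fun A => dpMatW n k (z A) A (x A)).prod *ᵥ dpSnk K n k) s ≠ 0 ↔
        ∃ G : Finset (Finset (Fin n)), (∀ A ∈ G, A ∈ L ∧ x A = true) ∧
          (s.2 : ℕ) + G.card ≤ k ∧ ∀ u, u ∈ s.1 ∨ ∃ A ∈ G, u ∈ A := by
  classical
  induction L with
  | nil =>
    refine ⟨fun _ => 0, fun x s => ?_⟩
    have h0 : ((([] : List (Finset (Fin n))).map fun A => dpMatW n k (0 : K) A (x A)).prod *ᵥ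
        dpSnk K n k) s = if s.1 = univ then 1 else 0 := by
      simp [dpSnk]
    rw [h0]
    constructor
    · intro h
      have hs : s.1 = univ := by
        by_contra hne
        simp [hne] at h
      refine ⟨∅, by simp, ?_, fun u => Or.inl (by rw [hs]; exact Finset.mem_univ u)⟩
      have := s.2.2
      simp only [Finset.card_empty]
      omega
    · rintro ⟨G, hG, _, hcov⟩
      have hs : s.1 = univ := by
        rw [Finset.eq_univ_iff_forall]
        intro u
        rcases hcov u with h | ⟨A, hA, _⟩
        · exact h
        · exact absurd (hG A hA).1 (by simp)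
      simp [hs]
  | cons A L ih =>
    have hA : A ∉ L := (List.nodup_cons.1 hL).1
    have hL' : L.Nodup := (List.nodup_cons.1 hL).2
    obtain ⟨z, hz⟩ := ih hL'
    -- the value for the rest of the list
    set v : (Finset (Fin n) → Bool) → St n k → K := fun x =>
      ((L.map fun A => dpMatW n k (z A) A (x A)).prod *ᵥ dpSnk K n k) with hv
    -- the next state
    let nx : St n k → St n k := fun s =>
      if h : (s.2 : ℕ) + 1 < k + 1 then (s.1 ∪ A, ⟨(s.2 : ℕ) + 1, h⟩) else s
    obtain ⟨ζ, hζ⟩ := Infinite.exists_notMem_finset
      ((univ : Finset ((Finset (Fin n) → Bool) × St n k)).image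
        fun p => - v p.1 p.2 / v p.1 (nx p.2))
    have hζ' : ∀ x s, v x (nx s) ≠ 0 → v x s + ζ * v x (nx s) ≠ 0 := by
      intro x s hne h0
      apply hζ
      rw [Finset.mem_image]
      refine ⟨(x, s), Finset.mem_univ _, ?_⟩
      show - v x s / v x (nx s) = ζ
      rw [div_eq_iff hne]
      linear_combination -h0
    refine ⟨Function.update z A ζ, fun x s => ?_⟩
    have hmap : (L.map fun B => dpMatW n k (Function.update z A ζ B) B (x B)) =
        L.map fun B => dpMatW n k (z B) B (x B) := by
      apply List.map_congr_left
      intro B hB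
      rw [Function.update_of_ne]
      rintro rfl
      exact hA hB
    rw [List.map_cons, List.prod_cons, ← mulVec_mulVec, hmap, Function.update_self]
    have hstep : (dpMatW n k ζ A (x A) *ᵥ v x) s = v x s +
        (if h : x A = true ∧ (s.2 : ℕ) + 1 < k + 1 then
          ζ * v x (s.1 ∪ A, ⟨(s.2 : ℕ) + 1, h.2⟩) else 0) := by
      show ∑ t, dpMatW n k ζ A (x A) s t * v x t = _
      unfold dpMatW
      simp only [add_mul, Finset.sum_add_distrib]
      congr 1
      · simp
      · by_cases h : x A = true ∧ (s.2 : ℕ) + 1 < k + 1
        · rw [dif_pos h, Finset.sum_eq_single (s.1 ∪ A, ⟨(s.2 : ℕ) + 1, h.2⟩)]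
          · simp [h.1]
          · intro t _ ht
            rw [if_neg, zero_mul]
            rintro ⟨_, h2, h3⟩
            apply ht
            apply Prod.ext
            · exact h2.symm
            · apply Fin.ext
              exact h3.symm
          · intro h'; exact absurd (Finset.mem_univ _) h'
        · rw [dif_neg h]
          apply Finset.sum_eq_zero
          intro t _
          rw [if_neg, zero_mul]
          rintro ⟨h1, _, h3⟩
          apply h
          refine ⟨h1, ?_⟩
          rw [h3]
          exact t.2.2
    change (dpMatW n k ζ A (x A) *ᵥ v x) s ≠ 0 ↔ _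
    rw [hstep]
    by_cases h : x A = true ∧ (s.2 : ℕ) + 1 < k + 1
    · rw [dif_pos h]
      have hnx : nx s = (s.1 ∪ A, ⟨(s.2 : ℕ) + 1, h.2⟩) := dif_pos h.2
      rw [← hnx]
      have hiff₁ := hz x s
      have hiff₂ := hz x (nx s)
      constructor
      · intro hpos
        by_cases h0 : v x s = 0
        · have h1 : v x (nx s) ≠ 0 := by
            intro h'
            rw [h0, h', mul_zero, add_zero] at hpos
            exact hpos rfl
          obtain ⟨G, hG, hc, hcov⟩ := hiff₂.1 h1
          rw [hnx] at hc hcov
          refine ⟨insert A G, ?_, ?_, ?_⟩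
          · intro B hB
            rcases Finset.mem_insert.1 hB with rfl | hB
            · exact ⟨List.mem_cons_self, h.1⟩
            · exact ⟨List.mem_cons_of_mem _ (hG B hB).1, (hG B hB).2⟩
          · have h5 := Finset.card_insert_le A G
            simp only at hc
            omega
          · intro u
            rcases hcov u with h6 | ⟨B, hB, hu⟩
            · rcases Finset.mem_union.1 h6 with h7 | h7
              · exact Or.inl h7
              · exact Or.inr ⟨A, Finset.mem_insert_self _ _, h7⟩
            · exact Or.inr ⟨B, Finset.mem_insert_of_mem hB, hu⟩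
        · obtain ⟨G, hG, hc, hcov⟩ := hiff₁.1 h0
          exact ⟨G, fun B hB => ⟨List.mem_cons_of_mem _ (hG B hB).1, (hG B hB).2⟩, hc, hcov⟩
      · rintro ⟨G, hG, hc, hcov⟩
        by_cases h1 : v x (nx s) ≠ 0
        · exact hζ' x s h1
        · rw [not_not] at h1
          rw [h1, mul_zero, add_zero]
          by_cases hAG : A ∈ G
          · exfalso
            refine (hiff₂.2 ?_) h1
            rw [hnx]
            refine ⟨G.erase A, ?_, ?_, ?_⟩
            · intro B hB
              obtain ⟨hne, hB'⟩ := Finset.mem_erase.1 hB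
              refine ⟨?_, (hG B hB').2⟩
              rcases List.mem_cons.1 (hG B hB').1 with h8 | h8
              · exact absurd h8 hne
              · exact h8
            · have h5 := Finset.card_erase_add_one hAG
              simp only
              omega
            · intro u
              rcases hcov u with h6 | ⟨B, hB, hu⟩
              · exact Or.inl (Finset.mem_union_left _ h6)
              · by_cases hBA : B = A
                · rw [hBA] at hu
                  exact Or.inl (Finset.mem_union_right _ hu)
                · exact Or.inr ⟨B, Finset.mem_erase.2 ⟨hBA, hB⟩, hu⟩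
          · refine hiff₁.2 ⟨G, ?_, hc, hcov⟩
            intro B hB
            refine ⟨?_, (hG B hB).2⟩
            rcases List.mem_cons.1 (hG B hB).1 with h8 | h8
            · rw [h8] at hB; exact absurd hB hAG
            · exact h8
    · rw [dif_neg h, add_zero]
      refine (hz x s).trans ?_
      constructor
      · rintro ⟨G, hG, hc, hcov⟩
        exact ⟨G, fun B hB => ⟨List.mem_cons_of_mem _ (hG B hB).1, (hG B hB).2⟩, hc, hcov⟩
      · rintro ⟨G, hG, hc, hcov⟩
        have hAG : A ∉ G := by
          intro hAG
          apply h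
          refine ⟨(hG A hAG).2, ?_⟩
          have : 0 < G.card := Finset.card_pos.2 ⟨A, hAG⟩
          omega
        refine ⟨G, ?_, hc, hcov⟩
        intro B hB
        refine ⟨?_, (hG B hB).2⟩
        rcases List.mem_cons.1 (hG B hB).1 with h8 | h8
        · rw [h8] at hB; exact absurd hB hAG
        · exact h8

theorem upper_bound_infinite [Infinite K] (L : List (Finset (Fin n))) (hL : L.Nodup)
    (hall : ∀ A, A ∈ L) :
    ∃ P : LinProg K (Finset (Fin n)) (2 ^ n * (k + 1)), P.order = L ∧
      ∀ F : Finset (Finset (Fin n)),
        (P.value (fun A => decide (A ∈ F)) ≠ 0 ↔ HasCover F k) := by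
  obtain ⟨z, hz⟩ := dpW_spec (K := K) n k L hL
  refine ⟨dpW n k z L hL, rfl, fun F => ?_⟩
  rw [value_dpW, hz]
  constructor
  · rintro ⟨G, hG, hc, hcov⟩
    refine ⟨G, fun A hA => by simpa using (hG A hA).2, by simpa using hc, fun u => ?_⟩
    rcases hcov u with h | h
    · simp at h
    · exact h
  · rintro ⟨G, hG, hc, hcov⟩
    exact ⟨G, fun A hA => ⟨hall A, by simpa using hG hA⟩, by simpa using hc,
      fun u => Or.inr (hcov u)⟩

end upper

end Pool.Agent.Lib.MP_8fffab_lc_Gap
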