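import Pool.Agent.Lib.MP_8fffab_lc_Gap.Circuit
import Pool.Agent.Lib.MP_8fffab_lc_Gap.Linear
import Pool.Agent.Lib.MP_8fffab_lc_Gap.Upper

namespace Pool.Agent.Lib.MP_8fffab_lc_Gap

open Finset
open Pool.Agent.Lib.MP_8fffab_lc (HasCover)
open Pool.Agent.Lib.MP_8fffab_lc_DNNF Pool.Agent.Lib.MP_8fffab_lc_Linear

theorem radius_bound {ε : ℝ} {d h K : ℕ} (hd : 2 ≤ d)
    (hK : (K : ℝ) ≤ ε * (d * (2 * h) : ℕ)) :
    ((2 * (d * (K - 2 * h) / (d - 1)) : ℕ) : ℝ) ≤ 4 * (ε * (d * (2 * h) : ℕ)) := by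
  have h1 : d * (K - 2 * h) / (d - 1) ≤ 2 * K := by
    apply Nat.div_le_of_le_mul
    calc d * (K - 2 * h) ≤ (2 * (d - 1)) * K := by
          apply Nat.mul_le_mul
          · omega
          · omega
      _ = (d - 1) * (2 * K) := by ring
  have h2 : 2 * (d * (K - 2 * h) / (d - 1)) ≤ 4 * K := by omega
  have h3 : ((2 * (d * (K - 2 * h) / (d - 1)) : ℕ) : ℝ) ≤ ((4 * K : ℕ) : ℝ) := by exact_mod_cast h2
  refine h3.trans ?_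
  push_cast at hK ⊢
  linarith

theorem budget_bound {ε : ℝ} {d h K : ℕ} (hε : ε ≤ 1 / 2) (hh : 1 ≤ h)
    (hK : (K : ℝ) ≤ ε * (d * (2 * h) : ℕ)) : K < (d + 1) * h := by
  have h1 : (K : ℝ) ≤ 1 / 2 * (d * (2 * h) : ℕ) := by
    refine hK.trans ?_
    gcongr
  have h2 : (K : ℝ) ≤ ((d * h : ℕ) : ℝ) := by
    push_cast at h1 ⊢
    linarith
  have h3 : K ≤ d * h := by exact_mod_cast h2
  nlinarith

theorem asymptotic_circuit_gap (b : ℝ) (hb0 : 0 ≤ b) (hb : b < 2) :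
    ∃ ε : ℝ, 0 < ε ∧ ∃ d₀ : ℕ, 2 ≤ d₀ ∧ ∀ d, d₀ ≤ d → ∀ c : ℕ, ∃ h₀ : ℕ, ∀ h, h₀ ≤ h →
      ∀ (C : ℕ → Gate (Finset (Fin (d * (2 * h))))) (out K : ℕ), Decomposable C out →
        (K : ℝ) ≤ ε * (d * (2 * h) : ℕ) → Separates C out d (2 * h) K →
        (c : ℝ) * b ^ (d * (2 * h)) *
          ((d * (2 * h) : ℕ) + ((d * (2 * h)).choose d : ℕ) : ℝ) ^ c < (numAnd C out : ℝ) := by
  obtain ⟨ε, hε, hε2, d₀, hd₀, H⟩ := numeric_gap b hb0 hb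
  refine ⟨ε, hε, d₀, hd₀, fun d hd c => ?_⟩
  obtain ⟨h₀, hh₀⟩ := H d hd c
  refine ⟨h₀, fun h hh C out K hdec hK hC => ?_⟩
  obtain ⟨hh1, hlt⟩ := hh₀ h hh
  have hd2 : 2 ≤ d := hd₀.trans hd
  have h1 := explicit_gap d h K hd2 hh1 (budget_bound hε2 hh1 hK) C out hdec hC
  set r := 2 * (d * (K - 2 * h) / (d - 1)) with hr
  have h2 := hlt r (radius_bound hd2 hK)
  have h3 : (((2 * h).choose h ^ (d - 1) : ℕ) : ℝ) ≤
      (numAnd C out : ℝ) * (ball (d * (2 * h)) r : ℝ) ^ 2 := by exact_mod_cast h1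
  have h4 := lt_of_lt_of_le h2 h3
  exact lt_of_mul_lt_mul_right h4 (by positivity)

theorem asymptotic_linear_gap (b : ℝ) (hb0 : 0 ≤ b) (hb : b < 2) :
    ∃ ε : ℝ, 0 < ε ∧ ∃ d₀ : ℕ, 2 ≤ d₀ ∧ ∀ d, d₀ ≤ d → ∀ c : ℕ, ∃ h₀ : ℕ, ∀ h, h₀ ≤ h →
      ∀ (F : Type*) [Field F] (w K : ℕ) (P : LinProg F (Finset (Fin (d * (2 * h)))) w),
        (K : ℝ) ≤ ε * (d * (2 * h) : ℕ) → SeparatesLin P d (2 * h) K →
        (c : ℝ) * b ^ (d * (2 * h)) *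
          ((d * (2 * h) : ℕ) + ((d * (2 * h)).choose d : ℕ) : ℝ) ^ c < (w : ℝ) := by
  obtain ⟨ε, hε, hε2, d₀, hd₀, H⟩ := numeric_gap b hb0 hb
  refine ⟨ε, hε, d₀, hd₀, fun d hd c => ?_⟩
  obtain ⟨h₀, hh₀⟩ := H d hd (c + 1)
  refine ⟨h₀, fun h hh F _ w K P hK hP => ?_⟩
  obtain ⟨hh1, hlt⟩ := hh₀ h hh
  have hd2 : 2 ≤ d := hd₀.trans hd
  have h1 := explicit_linear_gap d h K hd2 hh1 (budget_bound hε2 hh1 hK) w P hP
  set r := 2 * (d * (K - 2 * h) / (d - 1)) with hr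
  have h2 := hlt r (radius_bound hd2 hK)
  set B : ℝ := (ball (d * (2 * h)) r : ℝ) with hB
  have hB1 : 1 ≤ B := by
    have : 1 ≤ ball (d * (2 * h)) r := by
      unfold ball
      rw [Finset.sum_range_succ']
      simp
    rw [hB]
    exact_mod_cast this
  set N : ℝ := ((d * (2 * h)).choose d : ℝ) with hN
  set s : ℝ := ((d * (2 * h) : ℕ) : ℝ) with hs
  have h3 : (((2 * h).choose h ^ (d - 1) : ℕ) : ℝ) ≤ N * (w * B) := by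
    rw [hN, hB]; exact_mod_cast h1
  have h4 := lt_of_lt_of_le h2 h3
  have hs0 : 0 ≤ s := by positivity
  have hNpos : 0 < N := by
    rw [hN]
    have : 0 < (d * (2 * h)).choose d := Nat.choose_pos (by nlinarith)
    exact_mod_cast this
  by_contra hcon
  rw [not_lt] at hcon
  have h5 : N * (w * B) ≤ N * (((c : ℝ) * b ^ (d * (2 * h)) * (s + N) ^ c) * B ^ 2) := by
    have h6 : B ≤ B ^ 2 := by nlinarith
    gcongr
  have h7 : N * (((c : ℝ) * b ^ (d * (2 * h)) * (s + N) ^ c) * B ^ 2) ≤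
      ((c + 1 : ℕ) : ℝ) * b ^ (d * (2 * h)) * (s + N) ^ (c + 1) * B ^ 2 := by
    have e1 : ((c + 1 : ℕ) : ℝ) * b ^ (d * (2 * h)) * (s + N) ^ (c + 1) * B ^ 2 =
      (s + N) * ((((c + 1 : ℕ) : ℝ) * b ^ (d * (2 * h)) * (s + N) ^ c) * B ^ 2) := by
      rw [pow_succ]; ring
    rw [e1]
    have : (c : ℝ) ≤ ((c + 1 : ℕ) : ℝ) := by push_cast; linarith
    gcongr
    linarith
  linarith

end Pool.Agent.Lib.MP_8fffab_lc_Gap
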